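import Pool.Agent.T3h90.TW.Univ
import Pool.Agent.N846.HU.Main
import Pool.Agent.N846.ZD.Moll
import Pool.Agent.N846.ZD.Mb
import Pool.Agent.N846.ZD.Cvx
import Pool.Agent.N846.ZD.Tc

/-! All parts together. -/

set_option autoImplicit false

namespace Pool.Agent.T3h90.TW

open Complex NumberField IsDedekindDomain
open Pool.Agent.N846.DU (GLFamily VX Nv)
open Pool.Agent.N846.LM (Twists)
open Pool.Agent.N846.ZD (pow moll mb conv cvx tc)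
open Pool.Agent.N846.HU (blk lft dia lva det pl)

theorem main (K : Type) [Field K] [NumberField K] (n N n' N' N'' : ℕ) (hn : 1 ≤ n) {ε σ : ℝ} (hε : 0 < ε)
    (hσ : 1 / 2 < σ) (hσ1 : σ ≤ 1) :
    (∃ A : ℝ, 1 ≤ A ∧
      ∀ (ι : Type) (S : ι → Finset (HeightOneSpectrum (𝓞 K)))
        (α : ι → HeightOneSpectrum (𝓞 K) → Fin n → ℂ) (u : ι → VX K → ℂ) (q : ι → ι → ℝ) (κ : ι → ι → Fin N → ℂ)
        (S' : Finset (HeightOneSpectrum (𝓞 K))) (α' : HeightOneSpectrum (𝓞 K) → Fin n' → ℂ) (w : VX K → ℂ) (q' : ℝ)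
        (κ' : Fin N'' → ℂ) (qs : ι → ℝ) (μ : ι → Fin N' → ℂ) (L : ι → ℂ → ℂ),
        GLFamily n N S α u q κ → Twists n' N' N'' u S' α' w q' κ' qs μ L →
        ∀ (T : Set ι) (s : ι → ℂ) (C Q Q' : ℝ), 1 ≤ C → 1 ≤ Q → Q ^ 2 ≤ C →
          q' * ∏ j, (1 + ‖κ' j‖) ≤ Q' → A ≤ C * Q * Q' → (∀ f ∈ T, ∏ v ∈ S f, Nv v ≤ C * Q * Q') →
          (∀ f ∈ T, qs f * ∏ j, (1 + ‖μ f j + (s f).im * I‖) ≤ C) →
          (∀ f ∈ T, ∀ g ∈ T, q f g * ∏ j, (1 + ‖κ f g j + ((s f).im - (s g).im) * I‖) ≤ Q) →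
          (∀ f ∈ T,
            (σ ≤ (s f).re ∧ ¬((C * Q * Q') ^ (-ε) ≤ ‖L f (s f)‖ ∧ ‖L f (s f)‖ ≤ (C * Q * Q') ^ ε)) ∨
            (1 / 2 ≤ (s f).re ∧ (s f).re ≤ σ ∧ (C * Q * Q') ^ ε * C ^ ((σ - (s f).re) / 2) < ‖L f (s f)‖)) →
          T.Finite ∧ (T.ncard : ℝ) ≤ (C * Q * Q') ^ ε *
            max (C ^ (1 - σ)) (Q ^ min (4 * (1 - σ) / (3 - 2 * σ)) (2 * (1 - σ) / (2 * σ - 1)))) ∧
    (∀ m : ℕ, 4 * n ≤ m → ∀ B Q' : ℝ, 1 ≤ B → 1 ≤ Q' → ∃ A c : ℝ, 1 ≤ A ∧ 0 < c ∧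
      ∀ (ι : Type) (S : ι → Finset (HeightOneSpectrum (𝓞 K)))
        (α : ι → HeightOneSpectrum (𝓞 K) → Fin n → ℂ) (u : ι → VX K → ℂ) (q : ι → ι → ℝ) (κ : ι → ι → Fin N → ℂ)
        (S' : Finset (HeightOneSpectrum (𝓞 K))) (α' : HeightOneSpectrum (𝓞 K) → Fin n' → ℂ) (w : VX K → ℂ) (q' : ℝ)
        (κ' : Fin N'' → ℂ) (qs : ι → ℝ) (μ : ι → Fin N' → ℂ) (L : ι → ℂ → ℂ) (C : ι → ℝ),
        GLFamily n N S α u q κ → Twists n' N' N'' u S' α' w q' κ' qs μ L → q' * ∏ j, (1 + ‖κ' j‖) ≤ Q' →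
        (∀ f, 1 ≤ C f) → (∀ f, qs f * ∏ j, (1 + ‖μ f j‖) ≤ B * C f ^ m) → (∀ f, ∏ v ∈ S f, Nv v ≤ C f) →
        (∀ f g, q f g * ∏ j, (1 + ‖κ f g j‖) ≤ B * (C f * C g) ^ n) →
        ∀ X : ℝ, A ≤ X → ∃ E : Set ι, E.Finite ∧
          (E.ncard : ℝ) ≤ X ^ (max (m * (1 - σ))
            (2 * n * min (4 * (1 - σ) / (3 - 2 * σ)) (2 * (1 - σ) / (2 * σ - 1))) + ε) ∧
          ∀ f, C f ≤ X → f ∉ E → ∀ s : ℂ, |s.im| ≤ X ^ c →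
            (σ ≤ s.re → X ^ (-ε) ≤ ‖L f s‖ ∧ ‖L f s‖ ≤ X ^ ε) ∧
            (1 / 2 ≤ s.re → s.re ≤ σ → ‖L f s‖ ≤ X ^ (m * (σ - s.re) / 2 + ε))) ∧
    (∀ m : ℕ, (m : ℝ) * (1 - σ) < n + 1 → (6 * (n : ℝ) - 2) * (1 - σ) < n + 1 →
      max (m * (1 - σ)) (2 * n * min (4 * (1 - σ) / (3 - 2 * σ)) (2 * (1 - σ) / (2 * σ - 1))) < n + 1) := by
  refine ⟨?_, fun m hm B Q' hB hQ' => ?_, fun m h1 h2 => ?_⟩
  · exact both_set pow moll mb conv blk lft dia lva det pl cvx tc K n N n' N' N'' hn hσ hσ1 hε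
  · exact univ_set pow moll mb conv blk lft dia lva det pl cvx tc K n N n' N' N'' m hn hm hσ hσ1 hε B Q' hB hQ'
  · exact range_m hn hσ h1 h2

end Pool.Agent.T3h90.TW
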