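import Pool.Agent.T3h90.TW.CoreS
import Pool.Agent.N846.HU.CoreL

/-! Large values of blocks to the right of the critical line. -/

set_option autoImplicit false

namespace Pool.Agent.T3h90.TW

open Filter Topology Complex MeasureTheory Set NumberField IsDedekindDomain
open Pool.Agent.TH949.LT (TT Lam VV VV_nonneg VV_le)
open Pool.Agent.N846.DT (PairF co Uc co_abs summ_mono' summ_cs Lam_nonneg half_exp)
open Pool.Agent.N846.DU (VX LV Nv logRS RS GLFamily Rep LV_nonneg one_le_cond shift_cond shift_cond' S_LEFT S_DIAG)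
open Pool.Agent.N846.LM (Twists)
open Pool.Agent.N846.ZD (Ph Maj Supp S_POW S_CONV S_BLOCK cut_summ absorb)
open Pool.Agent.N846.HU (S_DET S_PL count0)

/-- counting by blocks -/
theorem by_blocks {ι : Type} [Fintype ι] {Y e B : ℝ} (rr : ι → ℕ) (hrr : ∀ f, (rr f : ℝ) ≤ Y) (hY : 0 ≤ Y)
    (hfl : Y + 1 ≤ Real.exp e)
    (hblock : ∀ r : ℕ, (r : ℝ) ≤ Y → ∀ [Fintype {f // rr f = r}],
      (Fintype.card {f // rr f = r} : ℝ) ≤ Real.exp B) :
    (Fintype.card ι : ℝ) ≤ Real.exp (e + B) := by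
  classical
  have hmem : ∀ f, rr f ∈ Finset.range (⌊Y⌋₊ + 1) := fun f => by
    rw [Finset.mem_range]
    have := Nat.le_floor (hrr f)
    omega
  have h2 : Fintype.card ι = ∑ r ∈ Finset.range (⌊Y⌋₊ + 1), (Finset.univ.filter fun f => rr f = r).card := by
    rw [← Finset.card_univ]
    exact Finset.card_eq_sum_card_fiberwise fun f _ => hmem f
  have hb : ∀ r ∈ Finset.range (⌊Y⌋₊ + 1), (((Finset.univ.filter fun f => rr f = r).card : ℕ) : ℝ) ≤
      Real.exp B := by
    intro r hr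
    rw [Finset.mem_range] at hr
    have h3 : r ≤ ⌊Y⌋₊ := by omega
    have h4 := hblock r ((Nat.le_floor_iff hY).1 h3)
    rw [Fintype.card_subtype] at h4
    exact h4
  rw [h2]
  push_cast
  refine (Finset.sum_le_sum hb).trans ?_
  rw [Finset.sum_const, Finset.card_range, nsmul_eq_mul, Real.exp_add]
  refine mul_le_mul_of_nonneg_right ?_ (Real.exp_pos _).le
  push_cast
  have := Nat.floor_le hY
  linarith

/-- the block on the critical line -/
noncomputable def down {X : Type} (L : X → ℝ) (d : ℝ) (b : TT X → ℂ) (r : ℕ) (l : TT X) : ℂ :=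
  if (r : ℝ) ≤ Lam L l then b l * Real.exp (-(d * (Lam L l - r))) else 0

theorem down_maj {X : Type} {w : X → ℂ} {L : X → ℝ} {d : ℝ} (hd : 0 ≤ d) {b : TT X → ℂ} {k r : ℕ} (h : Maj w k b) :
    Maj w k (down L d b r) := by
  refine Pool.Agent.N846.LV.maj_le h fun l => ?_
  unfold down
  split_ifs with h1
  · rw [norm_mul, Complex.norm_real, Real.norm_of_nonneg (Real.exp_pos _).le]
    refine mul_le_of_le_one_right (norm_nonneg _) ?_
    rw [Real.exp_le_one_iff]
    have : 0 ≤ d * (Lam L l - r) := mul_nonneg hd (by linarith)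
    linarith
  · rw [norm_zero]
    exact norm_nonneg _

theorem down_supp {X : Type} {L : X → ℝ} {d : ℝ} {b : TT X → ℂ} {r : ℕ} (h : Supp L b (r : ℝ) ((r : ℝ) + 1)) :
    Supp L (down L d b r) (r : ℝ) ((r : ℝ) + 1) := by
  intro l hl
  refine h l ?_
  intro h0
  apply hl
  unfold down
  split_ifs
  · rw [h0, zero_mul]
  · rfl

theorem down_Ph {X : Type} {L : X → ℝ} {d : ℝ} {b : TT X → ℂ} {r : ℕ} (h : Supp L b (r : ℝ) ((r : ℝ) + 1))
    (u : X → ℂ) (s : ℂ) : Ph L b u (s + d) = Real.exp (-(d * r)) * Ph L (down L d b r) u s := by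
  unfold Ph
  rw [← tsum_mul_left]
  refine tsum_congr fun l => ?_
  unfold down
  by_cases hb : b l = 0
  · rw [hb]
    simp
  · have h1 := (h l hb).1
    rw [if_pos h1]
    have e1 : cexp (-((s + d) * Lam L l)) = ((Real.exp (-(d * r)) : ℝ) : ℂ) *
        ((Real.exp (-(d * (Lam L l - r))) : ℝ) : ℂ) * cexp (-(s * Lam L l)) := by
      rw [Complex.ofReal_exp, Complex.ofReal_exp, ← Complex.exp_add, ← Complex.exp_add]
      congr 1
      push_cast
      ring
    rw [e1]
    ring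

/-- the bound for the number of large values of a block, by the `j`-th power -/
def BlkP (K : Type) [Field K] [NumberField K] (n N n' N' N'' : ℕ) (σ ε : ℝ) (j : ℕ) (E₀ : ℝ) : Prop :=
    ∀ (ι : Type) [Fintype ι] (S : ι → Finset (HeightOneSpectrum (𝓞 K)))
      (α : ι → HeightOneSpectrum (𝓞 K) → Fin n → ℂ) (u : ι → VX K → ℂ) (q : ι → ι → ℝ) (κ : ι → ι → Fin N → ℂ)
      (S' : Finset (HeightOneSpectrum (𝓞 K))) (α' : HeightOneSpectrum (𝓞 K) → Fin n' → ℂ) (w : VX K → ℂ) (q' : ℝ)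
      (κ' : Fin N'' → ℂ) (qs : ι → ℝ) (μ : ι → Fin N' → ℂ) (L : ι → ℂ → ℂ),
      GLFamily n N S α u q κ → Twists n' N' N'' u S' α' w q' κ' qs μ L →
      ∀ (ρ : ι → ℂ) (v C Q Q' : ℝ), 1 ≤ C → 1 ≤ Q → q' * ∏ j, (1 + ‖κ' j‖) ≤ Q' →
        E₀ ≤ C * Q * Q' → (∀ f, ∏ v ∈ S f, Nv v ≤ C * Q * Q') →
        (∀ f, qs f * ∏ j, (1 + ‖μ f j + (ρ f).im * I‖) ≤ C) →
        (∀ f g, q f g * ∏ j, (1 + ‖κ f g j + ((ρ f).im - (ρ g).im) * I‖) ≤ Q) →
        ∀ (b : TT (VX K) → ℂ) (r : ℕ), Maj w 2 b → Supp LV b (r : ℝ) ((r : ℝ) + 1) →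
          (r : ℝ) ≤ 6 * Real.log (C * Q * Q') → (∀ f, σ ≤ (ρ f).re) → (∀ f, (ρ f).re ≤ 1) →
          (∀ f, Real.exp (-v) ≤ ‖Ph LV b (u f) (ρ f)‖) →
          (Fintype.card ι : ℝ) ≤ Real.exp (ε * Real.log (C * Q * Q') +
            (max (j * r : ℝ) (Real.log Q) - (2 * σ - 1) * (j * r)) + 2 * j * v)

/-- large values of blocks -/
theorem blk_j (hPow : S_POW) (hConv : S_CONV) (hBl : S_BLOCK) (hL : S_LEFT) (hDi : S_DIAG)
    (hDet : S_DET) (hPl : S_PL)
    (K : Type) [Field K] [NumberField K] (n N n' N' N'' : ℕ) (hn : 1 ≤ n) {σ ε : ℝ} (hσ : 1 / 2 ≤ σ)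
    (hε : 0 < ε) (j : ℕ) : ∃ E₀ : ℝ, 1 ≤ E₀ ∧ BlkP K n N n' N' N'' σ ε j E₀ := by
  obtain ⟨c, E₁, hc0, hc1, hcε, hE₁1, hsel⟩ := core_free hPow hConv hBl hL hDi hDet hPl K n N n' N' N'' j hn
    (ε := ε / 2) (by positivity)
  obtain ⟨E₂, hE₂1, h2⟩ := count0 hPow hConv hBl hL hDi hDet hPl K n N n' N' N'' hn (ε := ε / 2) (by positivity)
  obtain ⟨E₃, hE₃1, hE₃⟩ := absorb (η := ε / 2) (by positivity) (1 / c + 1)
  refine ⟨max (max E₁ E₂) E₃, hE₁1.trans ((le_max_left _ _).trans (le_max_left _ _)), ?_⟩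
  intro ι _ S α u q κ S' α' w q' κ' qs μ L h hT ρ v C Q Q' hC hQ hcQ' hGE hram hcC hcQ b r hbM hbS hr6 hre hre1
    hlarge
  have hGE1 : E₁ ≤ C * Q * Q' := ((le_max_left _ _).trans (le_max_left _ _)).trans hGE
  have hGE2 : E₂ ≤ C * Q * Q' := ((le_max_right _ _).trans (le_max_left _ _)).trans hGE
  have hGE3 : E₃ ≤ C * Q * Q' := (le_max_right _ _).trans hGE
  have hj0 : (0 : ℝ) ≤ j := Nat.cast_nonneg j
  have hr0 : (0 : ℝ) ≤ r := Nat.cast_nonneg r
  have hjr0 : 0 ≤ (j : ℝ) * r := mul_nonneg hj0 hr0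
  obtain ⟨M, hM⟩ : ∃ M, M = Real.log (C * Q * Q') := ⟨_, rfl⟩
  have hM0 : 0 ≤ M := by
    rw [hM]
    exact Real.log_nonneg (hE₁1.trans hGE1)
  have hfl : 1 / c + 1 ≤ Real.exp (ε / 2 * M) := by
    rw [hM]
    exact (hE₃ _ hGE3).1
  have hkk : ∀ f, ((⌊((ρ f).re - σ) / c⌋₊ : ℕ) : ℝ) ≤ 1 / c := fun f => by
    refine (Nat.floor_le (div_nonneg (by linarith [hre f]) hc0.le)).trans ?_
    exact div_le_div_of_nonneg_right (by linarith [hre1 f]) hc0.le
  have hmain := by_blocks (Y := 1 / c) (e := ε / 2 * M)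
    (B := ε / 2 * M + (max (j * r : ℝ) (Real.log Q) - (2 * σ - 1) * (j * r)) + 2 * j * v)
    (fun f => ⌊((ρ f).re - σ) / c⌋₊) hkk (by positivity) hfl (by
      intro k _ _
      have hfam := h.sub (fun f : {f // ⌊((ρ f).re - σ) / c⌋₊ = k} => f.1) Subtype.val_injective
      have htw : Twists n' N' N'' (fun f : {f // ⌊((ρ f).re - σ) / c⌋₊ = k} => u f.1) S' α' w q' κ'
          (fun f => qs f.1) (fun f => μ f.1) (fun f => L f.1) :=
        ⟨hT.rep, hT.self, fun f => hT.rs f.1, fun f => hT.re_gt f.1, fun f => hT.diff f.1, fun f => hT.eq f.1⟩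
      have hk0 : (0 : ℝ) ≤ k := Nat.cast_nonneg k
      obtain ⟨d, hd⟩ : ∃ d : ℝ, d = σ + k * c - 1 / 2 := ⟨_, rfl⟩
      have hkc : 0 ≤ k * c := mul_nonneg hk0 hc0.le
      have hd0 : 0 ≤ d := by rw [hd]; linarith
      have hkf : ∀ f : {f // ⌊((ρ f).re - σ) / c⌋₊ = k}, k * c ≤ (ρ f.1).re - σ ∧
          (ρ f.1).re - σ ≤ k * c + c := by
        intro f
        have h3 := Nat.floor_le (div_nonneg (by linarith [hre f.1] : 0 ≤ (ρ f.1).re - σ) hc0.le)
        have h4 := Nat.lt_floor_add_one (((ρ f.1).re - σ) / c)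
        rw [f.2] at h3 h4
        rw [le_div_iff₀ hc0] at h3
        rw [div_lt_iff₀ hc0] at h4
        exact ⟨h3, by linarith⟩
      rcases le_total 0 (d * r - v) with hv | hv
      · have h3 := hsel {f // ⌊((ρ f).re - σ) / c⌋₊ = k} (fun f => S f.1) (fun f => α f.1) (fun f => u f.1)
          (fun f g => q f.1 g.1) (fun f g => κ f.1 g.1) S' α' w q' κ' (fun f => qs f.1) (fun f => μ f.1)
          (fun f => L f.1) hfam htw (fun f => (ρ f.1).im) (d * r - v) (2 * r) C Q Q' 0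
          hv (by positivity) hC hQ hcQ' hGE1 (fun f => hram f.1) (fun f => hcC f.1) (fun f g => hcQ f.1 g.1) le_rfl
          (by rw [← hM]; positivity) Unit (fun _ r' => down LV d (if r' = r then b else fun _ => 0) r')
          (fun _ => ()) (fun _ => r)
          (fun f => ρ f.1 - d) (by simp) (fun _ r' => by
            refine down_maj hd0 ?_
            split_ifs
            · exact hbM
            · intro l
              rw [norm_zero]
              positivity) (fun _ r' => by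
            refine down_supp ?_
            split_ifs with h5
            · rw [h5]
              exact hbS
            · intro l hl
              exact absurd rfl hl)
          (fun f => hr6) (fun f => by
            simp only [sub_re, ofReal_re]
            linarith [(hkf f).1]) (fun f => by
            simp only [sub_re, ofReal_re]
            linarith [(hkf f).2]) (fun f => by simp)
          (fun f => by
            rw [show (2 : ℝ) * r / 2 = r by ring, sub_self, max_self, add_zero]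
            have h4 := hlarge f.1
            have e2 : ρ f.1 = (ρ f.1 - (d : ℂ)) + (d : ℂ) := by ring
            rw [if_pos rfl]
            rw [e2, down_Ph hbS, norm_mul, Complex.norm_real, Real.norm_of_nonneg (Real.exp_pos _).le] at h4
            have h5 := mul_le_mul_of_nonneg_left h4 (Real.exp_pos (d * r)).le
            rw [← mul_assoc, ← Real.exp_add, ← Real.exp_add, add_neg_cancel, Real.exp_zero, one_mul,
              ← sub_eq_add_neg] at h5
            exact h5)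
        refine h3.trans (Real.exp_le_exp.2 ?_)
        rw [← hM, show (j : ℝ) * (2 * r / 2) = j * r by ring]
        have h6 : (σ - 1 / 2) * (j * r) ≤ d * (j * r) := mul_le_mul_of_nonneg_right (by rw [hd]; linarith) hjr0
        have h7 : 2 * (j : ℝ) * (d * r - v) = 2 * (d * (j * r)) - 2 * j * v := by ring
        rw [h7]
        linarith
      · have h3 := h2 {f // ⌊((ρ f).re - σ) / c⌋₊ = k} (fun f => S f.1) (fun f => α f.1) (fun f => u f.1)
          (fun f g => q f.1 g.1) (fun f g => κ f.1 g.1) S' α' w q' κ' (fun f => qs f.1) (fun f => μ f.1)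
          (fun f => L f.1) hfam htw (fun f => (ρ f.1).im) C Q Q' hC hQ hcQ' hGE2 (fun f => hram f.1)
          (fun f => hcC f.1) (fun f g => hcQ f.1 g.1)
        refine h3.trans (Real.exp_le_exp.2 ?_)
        rw [← hM]
        have h4 := le_max_right (j * r : ℝ) (Real.log Q)
        have h5 : (j : ℝ) * (d * r) ≤ j * v := mul_le_mul_of_nonneg_left (by linarith) hj0
        have h6 : (σ - 1 / 2) * (j * r) ≤ d * (j * r) := mul_le_mul_of_nonneg_right (by rw [hd]; linarith) hjr0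
        linarith)
  refine hmain.trans (Real.exp_le_exp.2 ?_)
  rw [← hM]
  linarith

/-- the bounded powers at the same time -/
theorem blk_all (hPow : S_POW) (hConv : S_CONV) (hBl : S_BLOCK) (hL : S_LEFT) (hDi : S_DIAG)
    (hDet : S_DET) (hPl : S_PL)
    (K : Type) [Field K] [NumberField K] (n N n' N' N'' : ℕ) (hn : 1 ≤ n) {σ ε : ℝ} (hσ : 1 / 2 ≤ σ)
    (hε : 0 < ε) (J : ℕ) : ∃ E₀ : ℝ, 1 ≤ E₀ ∧ ∀ j ≤ J, BlkP K n N n' N' N'' σ ε j E₀ := by
  induction J with
  | zero =>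
    obtain ⟨E₀, hE₀, h⟩ := blk_j hPow hConv hBl hL hDi hDet hPl K n N n' N' N'' hn hσ hε 0
    refine ⟨E₀, hE₀, fun j hj => ?_⟩
    rw [Nat.le_zero.1 hj]
    exact h
  | succ J ih =>
    obtain ⟨E₁, hE₁, h1⟩ := ih
    obtain ⟨E₂, hE₂, h2⟩ := blk_j hPow hConv hBl hL hDi hDet hPl K n N n' N' N'' hn hσ hε (J + 1)
    refine ⟨max E₁ E₂, hE₁.trans (le_max_left _ _), fun j hj => ?_⟩
    have hmono : ∀ (E E' : ℝ), E ≤ E' → BlkP K n N n' N' N'' σ ε j E → BlkP K n N n' N' N'' σ ε j E' := by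
      intro E E' hEE h
      intro ι _ S α u q κ S' α' w q' κ' qs μ L h3 hT ρ v C Q Q' hC hQ hcQ' hGE
      exact h ι S α u q κ S' α' w q' κ' qs μ L h3 hT ρ v C Q Q' hC hQ hcQ' (hEE.trans hGE)
    rcases Nat.lt_or_ge j (J + 1) with h3 | h3
    · exact hmono _ _ (le_max_left _ _) (h1 j (by omega))
    · have : j = J + 1 := by omega
      rw [this] at hmono ⊢
      exact hmono _ _ (le_max_right _ _) h2

end Pool.Agent.T3h90.TW
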