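import Pool.Agent.N846.HU.Mult
import Pool.Agent.N846.HU.Real
import Pool.Agent.N846.HU.Cls

/-! One class, for blocks of mollified sums. -/

set_option autoImplicit false

namespace Pool.Agent.T3h90.TW

open Filter Topology Complex MeasureTheory Set NumberField IsDedekindDomain
open Pool.Agent.TH949.LT (TT Lam VV VV_nonneg VV_le)
open Pool.Agent.N846.DT (PairF co Uc co_abs summ_mono' summ_cs Lam_nonneg half_exp)
open Pool.Agent.N846.DU (VX LV Nv Rep LV_nonneg)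
open Pool.Agent.N846.ZD (Ph Maj Supp S_POW S_CONV S_BLOCK cut_summ)
open Pool.Agent.N846.HU

theorem one_class3 (hPow : S_POW) (hConv : S_CONV) (hDet : S_DET) {K : Type} [Field K] [NumberField K] {n : ℕ}
    {σ₀ c η θ : ℝ} {j J : ℕ} {Cb A₀ : ℝ}
    (hc0 : 0 < c) (hc1 : c ≤ 1 / 4) (h5 : 5 ≤ (σ₀ - 2 * c) * θ) (hθ : 0 < θ)
    (hηJ : η * (4 + 20 * J ^ 2) ≤ 2)
    (hBlk : ∀ (X ι : Type) [Countable X] [Fintype ι] (u : ι → X → ℂ) (L : X → ℝ) (s : ι → ℂ) (F : ι → ι → ℂ → ℂ)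
      (w : X → ℂ) (k : ℕ) (b : TT X → ℂ) (a r : ℕ) (σ D D' B V : ℝ), (∀ x, 0 ≤ L x) → 1 / 2 ≤ σ →
      (∀ f, σ ≤ (s f).re) → (∀ f, (s f).re ≤ 1) →
      (∀ f, Summable fun x => ‖u f x‖ ^ 2 * Real.exp (-((1 + c) * L x))) →
      (∀ f, Real.exp (∑' x, ‖u f x‖ ^ 2 * Real.exp (-((1 + c) * L x))) ≤ D) →
      (Summable fun x => ‖w x‖ ^ 2 * Real.exp (-((1 + 2 * c) * L x))) →
      Real.exp (∑' x, ‖w x‖ ^ 2 * Real.exp (-((1 + 2 * c) * L x))) ≤ D' →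
      (∀ f g, f ≠ g → PairF (u f) (u g) L (F f g)) → 0 ≤ B →
      (∀ f g, f ≠ g → ∀ v : ℝ, ‖F f g (((-σ₀ : ℝ) : ℂ) + (((s f).im - (s g).im) + v : ℝ) * I)‖ ≤
        B * (1 + |v|) ^ A₀) →
      Maj w k b → k ≤ 2 * J → Supp L b a (a + r) → r ≤ J → 0 ≤ V → 0 ≤ D → (∀ f, V ≤ ‖Ph L b (u f) (s f)‖) →
      Fintype.card ι * V ^ 2 ≤ Cb * (D * Real.exp ((1 + c) * a) + Fintype.card ι * B * Real.exp (-(σ₀ * a))) *
        (Real.exp ((1 - 2 * σ + 2 * c) * a) * D' ^ (4 * J ^ 2)))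
    {ι : Type} [Fintype ι] {S : ι → Finset (HeightOneSpectrum (𝓞 K))}
    {α : ι → HeightOneSpectrum (𝓞 K) → Fin n → ℂ} {u : ι → VX K → ℂ} {s : ι → ℂ} {F : ι → ι → ℂ → ℂ}
    {w : VX K → ℂ} {b : TT (VX K) → ℂ} {M LQ LC lam v o h : ℝ} {r : ℕ} {V U : Finset (HeightOneSpectrum (𝓞 K))}
    (hUV : U ⊆ V) (hrep : ∀ f, Rep n (S f) (α f) (u f)) (hUS : ∀ f, ∀ v ∈ U, v ∉ S f)
    (hh : h = n * ∑ v ∈ U, Real.log (Nv v)) (hh0 : 0 ≤ h) (hh4 : h ≤ 4 * M)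
    (hM : 0 ≤ M) (hLQ : 0 ≤ LQ) (hLQM : LQ ≤ M) (hs1 : ∀ f, 1 / 2 ≤ (s f).re) (hs2 : ∀ f, (s f).re ≤ 1 / 2 + c)
    (hsu : ∀ f, Summable fun x => ‖u f x‖ ^ 2 * Real.exp (-((1 + c) * LV x)))
    (hD : ∀ f, Real.exp (∑' x, ‖u f x‖ ^ 2 * Real.exp (-((1 + c) * LV x))) ≤ Real.exp (2 * η * M))
    (hsw : Summable fun x => ‖w x‖ ^ 2 * Real.exp (-((1 + 2 * c) * LV x)))
    (hD' : Real.exp (∑' x, ‖w x‖ ^ 2 * Real.exp (-((1 + 2 * c) * LV x))) ≤ Real.exp (2 * η * M))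
    (hVn : 2 * ((V.card : ℝ) * n) ≤ η * M)
    (hsuw : ∀ f, Summable fun z => ‖u f z‖ * ‖w z‖ * Real.exp (-((1 + c) * LV z)))
    (hF : ∀ f g, f ≠ g → PairF (u f) (u g) LV (F f g))
    (hFb : ∀ f g, f ≠ g → ∀ v : ℝ, ‖F f g (((-σ₀ : ℝ) : ℂ) + (((s f).im - (s g).im) + v : ℝ) * I)‖ ≤
        Real.exp ((1 / 2 + σ₀) * LQ + 2 * η * M) * (1 + |v|) ^ A₀)
    (hCbM : Cb ≤ Real.exp (η * M)) (h8 : 8 ≤ Real.exp (η * M)) (hlam0 : 0 ≤ lam)
    (hjJ : j + 1 ≤ J) (hVJ : 2 * j + V.card ≤ 2 * J)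
    (hb : Maj w 2 b) (hS : Supp LV b r (r + 1))
    (hlarge : ∀ f, Real.exp lam ≤ ‖Ph LV b (u f) (s f)‖)
    (hH1 : LQ + θ * M + 1 ≤ j * r + h) (hH2 : j * r + h ≤ max (j * r : ℝ) (LQ + θ * M + 1) + o)
    (hH3 : 3 * c * (j * r + h) + 2 * c * h ≤ θ * M)
    (hlam : v + max ((r : ℝ) - LC / 2) 0 ≤ lam) :
    (Fintype.card ι : ℝ) ≤ 2 * Real.exp ((3 + 20 * J ^ 2) * (η * M) +
      (max (j * (LC / 2)) LQ - 2 * j * v + 2 * θ * M + 1 + o)) := by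
  obtain ⟨b', hb'M, hb'S, hb'H⟩ := hPow (VX K) w LV 2 b r (r + 1) hb hS j
  obtain ⟨bU, hbU1, hbU2, hbU3⟩ := mult hDet hConv n (wV n V w) U fun v hv x => dv_le_wV n V w (hUV hv) x
  obtain ⟨b'', h''M, h''S, h''H⟩ := hConv (VX K) (wV n V w) LV (j * 2) U.card b' bU _ _ _ _
    (maj_mono hb'M (w_le_wV n V w)) hbU1 hb'S hbU2
  have hjr0 : (0 : ℝ) ≤ j * r := by positivity
  have hjrh0 : 0 ≤ (j : ℝ) * r + h := by linarith
  obtain ⟨a, ha⟩ : ∃ a : ℕ, a = ⌊(j : ℝ) * r + h⌋₊ := ⟨_, rfl⟩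
  have ha1 : (a : ℝ) ≤ j * r + h := by rw [ha]; exact Nat.floor_le hjrh0
  have ha2 : (j : ℝ) * r + h < a + 1 := by rw [ha]; exact Nat.lt_floor_add_one _
  have hPh : ∀ f, Real.exp (lam * j - c * h) ≤ ‖Ph LV b'' (u f) (s f)‖ := by
    intro f
    have g1 := hb'H (u f) (s f) (cut_summ LV_nonneg (hsuw f) hb hS (s f))
    obtain ⟨g2, g3⟩ := hbU3 (S f) (α f) (u f) (hrep f) (hUS f) (s f)
    have g4 := h''H (u f) (s f) g1.summable g2
    have g5 : Ph LV b'' (u f) (s f) = Ph LV b' (u f) (s f) * Ph LV bU (u f) (s f) := g4.tsum_eq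
    have g6 : Ph LV b' (u f) (s f) = Ph LV b (u f) (s f) ^ j := g1.tsum_eq
    rw [g5, g6, norm_mul, norm_pow, g3]
    have g7 : Real.exp lam ^ j ≤ ‖Ph LV b (u f) (s f)‖ ^ j := pow_le_pow_left₀ (Real.exp_pos _).le (hlarge f) j
    have g8 : Real.exp (-(c * h)) ≤ Real.exp (n * (1 / 2 - (s f).re) * ∑ v ∈ U, Real.log (Nv v)) := by
      refine Real.exp_le_exp.2 ?_
      have g9 : n * (1 / 2 - (s f).re) * ∑ v ∈ U, Real.log (Nv v) = (1 / 2 - (s f).re) * h := by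
        rw [hh]
        ring
      rw [g9]
      have g10 : (-c) * h ≤ (1 / 2 - (s f).re) * h := mul_le_mul_of_nonneg_right (by linarith [hs2 f]) hh0
      linarith
    have g11 : Real.exp (lam * j - c * h) = Real.exp lam ^ j * Real.exp (-(c * h)) := by
      rw [← Real.exp_nat_mul, ← Real.exp_add]
      congr 1
      ring
    rw [g11]
    exact mul_le_mul g7 g8 (Real.exp_pos _).le (by positivity)
  have hS' : Supp LV b'' (a : ℝ) ((a : ℝ) + ((j + 1 : ℕ) : ℝ)) := by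
    intro l hl
    have h1 := h''S l hl
    rw [← hh] at h1
    push_cast
    constructor
    · exact ha1.trans h1.1
    · have : (j : ℝ) * (r + 1) = j * r + j := by ring
      rw [this] at h1
      linarith [h1.2]
  obtain ⟨hsw', hsw''⟩ := wV_sum n V hc0 hsw
  have hD'' : Real.exp (∑' x, ‖wV n V w x‖ ^ 2 * Real.exp (-((1 + 2 * c) * LV x))) ≤ Real.exp (5 * η * M) := by
    have h1 := Real.exp_le_exp.1 hD'
    refine Real.exp_le_exp.2 (hsw''.trans ?_)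
    linarith
  have hUc : U.card ≤ V.card := Finset.card_le_card hUV
  have hmain := hBlk (VX K) ι u LV s F (wV n V w) (j * 2 + U.card) b'' a (j + 1) (1 / 2) (Real.exp (2 * η * M))
    (Real.exp (5 * η * M)) (Real.exp ((1 / 2 + σ₀) * LQ + 2 * η * M)) (Real.exp (lam * j - c * h)) LV_nonneg le_rfl
    hs1 (fun f => (hs2 f).trans (by linarith)) hsu hD hsw' hD'' hF (Real.exp_pos _).le hFb h''M (by omega) hS' hjJ
    (Real.exp_pos _).le (Real.exp_pos _).le hPh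
  have hfin := real_block2 (R := (Fintype.card ι : ℝ)) (lam := lam) (σ₀ := σ₀) (c := c) (η := η) (M := M)
    (LQ := LQ) (j := j) (a := a) (J := J) (h := h) (Nat.cast_nonneg _) le_rfl hCbM h8 (by
      have h1 : LQ + θ * M ≤ a := by linarith
      have hσ0 : 0 ≤ σ₀ - 2 * c := by
        by_contra hneg
        push Not at hneg
        have : (σ₀ - 2 * c) * θ < 0 := mul_neg_of_neg_of_pos hneg hθ
        linarith
      have h2 : (σ₀ - 2 * c) * (LQ + θ * M) ≤ (σ₀ - 2 * c) * a := mul_le_mul_of_nonneg_left h1 hσ0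
      have h3 : 5 * M ≤ (σ₀ - 2 * c) * θ * M := mul_le_mul_of_nonneg_right h5 hM
      have h4 : η * (4 + 20 * J ^ 2) * M ≤ 2 * M := mul_le_mul_of_nonneg_right hηJ hM
      have h6 : c * h ≤ 1 / 4 * (4 * M) := mul_le_mul hc1 hh4 hh0 (by norm_num)
      have h7 : c * LQ ≤ 1 / 4 * M := mul_le_mul hc1 hLQM hLQ (by norm_num)
      have h9 : 0 ≤ lam * j := by positivity
      nlinarith) hmain
  refine hfin.trans ?_
  refine mul_le_mul_of_nonneg_left (Real.exp_le_exp.2 ?_) (by norm_num)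
  have h10 := real_exp (j := (j : ℝ)) (r := (r : ℝ)) (LC := LC) (LQ := LQ) (lam := lam) (v := v) (M := M) (θ := θ)
    (o := o) (a := (a : ℝ)) (c := c) (h := h) (Nat.cast_nonneg j) hlam (ha1.trans hH2) (by positivity) (by
      have : 3 * c * a ≤ 3 * c * (j * r + h) := mul_le_mul_of_nonneg_left ha1 (by positivity)
      linarith)
  linarith

end Pool.Agent.T3h90.TW
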