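import Pool.Agent.N846.ZD.Pig
import Pool.Agent.N846.ZD.Par

/-! One block: the inequality of Halász and Montgomery. -/

set_option autoImplicit false

namespace Pool.Agent.T3h90.TW

open Filter Topology Complex MeasureTheory Set NumberField IsDedekindDomain
open Pool.Agent.TH949.LT (TT Lam VV VV_nonneg VV_le)
open Pool.Agent.N846.DT (PairF co Uc co_abs summ_mono' summ_cs Lam_nonneg half_exp)
open Pool.Agent.N846.ZD

/-- one block, by its `j`-th power: the Halász and Montgomery inequality -/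
theorem one_hal (hPow : S_POW) {σ₀ c a₁ η : ℝ} {J : ℕ} {Cb A₀ : ℝ} (h0 : 0 < σ₀) (hc0 : 0 < c)
    (hc2 : c ≤ σ₀ / 4) (hη : 0 < η) (hηJ : η * (2 * J + 4 + 8 * J ^ 2) ≤ a₁) (ha₁ : 0 < a₁)
    (hBlk : ∀ (X ι : Type) [Countable X] [Fintype ι] (u : ι → X → ℂ) (L : X → ℝ) (s : ι → ℂ) (F : ι → ι → ℂ → ℂ)
      (w : X → ℂ) (k : ℕ) (b : TT X → ℂ) (a r : ℕ) (σ D D' B V : ℝ), (∀ x, 0 ≤ L x) → 1 / 2 ≤ σ →
      (∀ f, σ ≤ (s f).re) → (∀ f, (s f).re ≤ 1) →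
      (∀ f, Summable fun x => ‖u f x‖ ^ 2 * Real.exp (-((1 + c) * L x))) →
      (∀ f, Real.exp (∑' x, ‖u f x‖ ^ 2 * Real.exp (-((1 + c) * L x))) ≤ D) →
      (Summable fun x => ‖w x‖ ^ 2 * Real.exp (-((1 + 2 * c) * L x))) →
      Real.exp (∑' x, ‖w x‖ ^ 2 * Real.exp (-((1 + 2 * c) * L x))) ≤ D' →
      (∀ f g, f ≠ g → PairF (u f) (u g) L (F f g)) → 0 ≤ B →
      (∀ f g, f ≠ g → ∀ v : ℝ, ‖F f g (((-σ₀ : ℝ) : ℂ) + (((s f).im - (s g).im) + v : ℝ) * I)‖ ≤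
        B * (1 + |v|) ^ A₀) →
      Maj w k b → k ≤ 2 * J → Supp L b a (a + r) → r ≤ J → 0 ≤ V → 0 ≤ D → (∀ f, V ≤ ‖Ph L b (u f) (s f)‖) →
      Fintype.card ι * V ^ 2 ≤ Cb * (D * Real.exp ((1 + c) * a) + Fintype.card ι * B * Real.exp (-(σ₀ * a))) *
        (Real.exp ((1 - 2 * σ + 2 * c) * a) * D' ^ (4 * J ^ 2)))
    {X ι : Type} [Countable X] [Fintype ι] {u : ι → X → ℂ} {L : X → ℝ} {s : ι → ℂ} {F : ι → ι → ℂ → ℂ}
    {w : X → ℂ} {cf : TT X → ℂ} {σ M LQ x y Y : ℝ} {r : ℕ} (hL : ∀ z, 0 ≤ L z) (hσ : 1 / 2 ≤ σ) (hσ1 : σ ≤ 1)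
    (hM : 0 ≤ M) (hLQ : 0 ≤ LQ) (hs1 : ∀ f, σ ≤ (s f).re) (hs2 : ∀ f, (s f).re ≤ 1)
    (hsu : ∀ f, Summable fun x => ‖u f x‖ ^ 2 * Real.exp (-((1 + c) * L x)))
    (hD : ∀ f, Real.exp (∑' x, ‖u f x‖ ^ 2 * Real.exp (-((1 + c) * L x))) ≤ Real.exp (2 * η * M))
    (hsw : Summable fun x => ‖w x‖ ^ 2 * Real.exp (-((1 + 2 * c) * L x)))
    (hD' : Real.exp (∑' x, ‖w x‖ ^ 2 * Real.exp (-((1 + 2 * c) * L x))) ≤ Real.exp (2 * η * M))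
    (hsuw : ∀ f, Summable fun z => ‖u f z‖ * ‖w z‖ * Real.exp (-((1 + c) * L z)))
    (hF : ∀ f g, f ≠ g → PairF (u f) (u g) L (F f g))
    (hFb : ∀ f g, f ≠ g → ∀ v : ℝ, ‖F f g (((-σ₀ : ℝ) : ℂ) + (((s f).im - (s g).im) + v : ℝ) * I)‖ ≤
        Real.exp ((1 / 2 + σ₀) * LQ + 2 * η * M) * (1 + |v|) ^ A₀) (hcf : Maj w 2 cf)
    (hCbM : Cb ≤ Real.exp (η * M)) (h8 : 8 ≤ Real.exp (η * M)) {j : ℕ} (hjJ : j ≤ J)
    (hjz : (1 / 2 + σ₀) * LQ + a₁ * M ≤ (σ₀ + 2 * σ - 1 - 2 * c) * (j * r))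
    (hY : 4 * ((⌊Y⌋₊ : ℝ) + 1) ≤ Real.exp (η * M))
    (hlarge : ∀ f, 1 / (4 * ((⌊Y⌋₊ : ℝ) + 1)) ≤ ‖Ph L (blk L cf x y Y r) (u f) (s f)‖) :
    (Fintype.card ι : ℝ) ≤ 2 * Real.exp (η * (2 * J + 3 + 8 * J ^ 2) * M + (2 - 2 * σ + 3 * c) * (j * r)) := by
  obtain ⟨b', hb'M, hb'S, hb'H⟩ := hPow X w L 2 (blk L cf x y Y r) r (r + 1) (blk_maj hcf x y Y r)
    (blk_supp L cf x y Y r) j
  obtain ⟨V₀, hV₀⟩ : ∃ V₀ : ℝ, V₀ = 1 / (4 * ((⌊Y⌋₊ : ℝ) + 1)) := ⟨_, rfl⟩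
  have hV₀0 : 0 < V₀ := by rw [hV₀]; positivity
  have hV₀e : Real.exp (-(η * M)) ≤ V₀ := by
    rw [hV₀, Real.exp_neg, one_div]
    exact inv_anti₀ (by positivity) hY
  have hVj : Real.exp (-(η * J * M)) ≤ V₀ ^ j := by
    have h1 := pow_le_pow_left₀ (Real.exp_pos _).le hV₀e j
    rw [← Real.exp_nat_mul] at h1
    refine le_trans (Real.exp_le_exp.2 ?_) h1
    have h2 : (j : ℝ) ≤ J := by exact_mod_cast hjJ
    have h3 : 0 ≤ η * M := by positivity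
    have h4 : (j : ℝ) * (η * M) ≤ J * (η * M) := mul_le_mul_of_nonneg_right h2 h3
    linarith
  have hPh : ∀ f, V₀ ^ j ≤ ‖Ph L b' (u f) (s f)‖ := by
    intro f
    have h1 := (hb'H (u f) (s f) (cut_summ hL (hsuw f) (blk_maj hcf x y Y r) (blk_supp L cf x y Y r) (s f))).tsum_eq
    have h2 : Ph L b' (u f) (s f) = Ph L (blk L cf x y Y r) (u f) (s f) ^ j := h1
    rw [h2, norm_pow]
    exact pow_le_pow_left₀ hV₀0.le (by rw [hV₀]; exact hlarge f) j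
  have hS' : Supp L b' ((j * r : ℕ) : ℝ) (((j * r : ℕ) : ℝ) + (j : ℝ)) := by
    intro l hl
    have h1 := hb'S l hl
    push_cast
    constructor
    · exact h1.1
    · have : (j : ℝ) * (r + 1) = j * r + j := by ring
      rw [← this]
      exact h1.2
  have hmain := hBlk X ι u L s F w (j * 2) b' (j * r) j σ (Real.exp (2 * η * M)) (Real.exp (2 * η * M))
    (Real.exp ((1 / 2 + σ₀) * LQ + 2 * η * M)) (V₀ ^ j) hL hσ hs1 hs2 hsu hD hsw hD' hF (Real.exp_pos _).le hFb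
    hb'M (by omega) hS' hjJ (by positivity) (Real.exp_pos _).le hPh
  have hfin := real_block (J := J) (a' := j * r) (σ := σ) (σ₀ := σ₀) (c := c) (η := η) (M := M) (LQ := LQ)
    (R := (Fintype.card ι : ℝ)) (Nat.cast_nonneg _) hVj hCbM h8 (by
      have h3 : η * (2 * J + 4 + 8 * J ^ 2) * M ≤ a₁ * M := mul_le_mul_of_nonneg_right hηJ hM
      push_cast
      linarith) hmain
  refine hfin.trans (le_of_eq ?_)
  push_cast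
  rfl

end Pool.Agent.T3h90.TW
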