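import Mathlib

/-! The choice of the parameters and of the powers. -/

set_option autoImplicit false

namespace Pool.Agent.T3h90.TW

/-- the exponent of `Q` -/
noncomputable def az (σ : ℝ) : ℝ := min (4 * (1 - σ) / (3 - 2 * σ)) (2 * (1 - σ) / (2 * σ - 1))

theorem az_nonneg {σ : ℝ} (hσ : 1 / 2 < σ) (hσ1 : σ ≤ 1) : 0 ≤ az σ := by
  unfold az
  refine le_min (div_nonneg (by linarith) (by linarith)) (div_nonneg (by linarith) (by linarith))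

theorem az_le_one {σ : ℝ} (hσ : 1 / 2 < σ) (hσ1 : σ ≤ 1) : az σ ≤ 1 := by
  unfold az
  refine (min_le_left _ _).trans ?_
  rw [div_le_one (by linarith)]
  linarith

theorem two_le_az {σ : ℝ} (hσ : 1 / 2 < σ) (hσ1 : σ ≤ 1) : 2 * (1 - σ) ≤ az σ := by
  unfold az
  refine le_min ?_ ?_
  · rw [le_div_iff₀ (by linarith)]
    nlinarith
  · rw [le_div_iff₀ (by linarith)]
    nlinarith

theorem az_cmp {σ : ℝ} (hσ : 1 / 2 < σ) (hσ1 : σ < 3 / 4) :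
    4 * (1 - σ) / (3 - 2 * σ) ≤ 2 * (1 - σ) / (2 * σ - 1) := by
  rw [div_le_div_iff₀ (by linarith) (by linarith)]
  nlinarith

/-- the power for the mean value -/
theorem cost1 {σ LQ r : ℝ} (hσ : 1 / 2 ≤ σ) (hσ1 : σ ≤ 1) (hr : 0 < r) (hrQ : r < LQ) :
    ∃ j : ℕ, (j : ℝ) ≤ LQ / r + 1 ∧
      max (j * r) LQ - (2 * σ - 1) * (j * r) ≤ 4 * (1 - σ) / (3 - 2 * σ) * LQ := by
  have hLQ : 0 < LQ := by linarith
  have hd : 0 < 3 - 2 * σ := by linarith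
  have h1 : (⌊LQ / r⌋₊ : ℝ) ≤ LQ / r := Nat.floor_le (by positivity)
  have h2 : LQ / r < (⌊LQ / r⌋₊ : ℝ) + 1 := Nat.lt_floor_add_one _
  have h3 : 1 ≤ ⌊LQ / r⌋₊ := by
    rw [Nat.one_le_floor_iff, le_div_iff₀ hr]
    linarith
  have h3' : (1 : ℝ) ≤ (⌊LQ / r⌋₊ : ℝ) := by exact_mod_cast h3
  rw [le_div_iff₀ hr] at h1
  rw [div_lt_iff₀ hr] at h2
  obtain ⟨z, hz⟩ : ∃ z : ℝ, z = (⌊LQ / r⌋₊ : ℝ) * r := ⟨_, rfl⟩
  have hzr : r ≤ z := by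
    rw [hz]
    exact le_mul_of_one_le_left hr.le h3'
  have hz1 : z ≤ LQ := by rw [hz]; exact h1
  have hz2 : LQ < z + r := by rw [hz]; linarith
  rcases le_or_gt LQ ((3 - 2 * σ) * z) with h | h
  · refine ⟨⌊LQ / r⌋₊, ?_, ?_⟩
    · have : (⌊LQ / r⌋₊ : ℝ) ≤ LQ / r := Nat.floor_le (by positivity)
      linarith
    · rw [← hz, max_eq_right hz1, div_mul_eq_mul_div, le_div_iff₀ hd]
      have h5 : (2 * σ - 1) * LQ ≤ (2 * σ - 1) * ((3 - 2 * σ) * z) := mul_le_mul_of_nonneg_left h (by linarith)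
      linarith
  · refine ⟨⌊LQ / r⌋₊ + 1, ?_, ?_⟩
    · have : (⌊LQ / r⌋₊ : ℝ) ≤ LQ / r := Nat.floor_le (by positivity)
      push_cast
      linarith
    · have e1 : ((⌊LQ / r⌋₊ + 1 : ℕ) : ℝ) * r = z + r := by
        rw [hz]
        push_cast
        ring
      rw [e1, max_eq_left hz2.le, div_mul_eq_mul_div, le_div_iff₀ hd]
      have h5 : (2 - 2 * σ) * (z + r) ≤ (2 - 2 * σ) * (2 * z) := mul_le_mul_of_nonneg_left (by linarith) (by linarith)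
      have h6 : (3 - 2 * σ) * ((2 - 2 * σ) * (z + r)) ≤ (3 - 2 * σ) * ((2 - 2 * σ) * (2 * z)) :=
        mul_le_mul_of_nonneg_left h5 hd.le
      have h7 : (4 - 4 * σ) * ((3 - 2 * σ) * z) ≤ (4 - 4 * σ) * LQ := mul_le_mul_of_nonneg_left h.le (by linarith)
      linarith

/-- the power for the inequality of Halász and Montgomery -/
theorem cost2 {σ σ₀ c a₁ M LQ r : ℝ} (hσ : 3 / 4 ≤ σ) (hσ1 : σ ≤ 1) (hr : 0 < r) (hrQ : r < LQ) (hLQM : LQ ≤ M)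
    (hσ₀ : 0 ≤ σ₀) (hσ₀1 : σ₀ ≤ 1 / 4) (ha₁ : 0 ≤ a₁) (ha₁1 : a₁ ≤ 1 / 4) (hc : 2 * c ≤ σ₀) :
    ∃ j : ℕ, (j : ℝ) ≤ 2 * M / r + 1 ∧ (1 / 2 + σ₀) * LQ + a₁ * M ≤ (σ₀ + 2 * σ - 1 - 2 * c) * (j * r) ∧
      (j : ℝ) * r ≤ 5 * M ∧ (2 - 2 * σ) * (j * r) ≤ 2 * (1 - σ) / (2 * σ - 1) * LQ + 2 * (σ₀ + a₁) * M := by
  have hLQ : 0 < LQ := by linarith
  have hM : 0 < M := by linarith
  have hd : 1 / 2 ≤ 2 * σ - 1 := by linarith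
  have hd0 : 0 < 2 * σ - 1 := by linarith
  obtain ⟨z, hz⟩ : ∃ z : ℝ, z = ((1 / 2 + σ₀) * LQ + a₁ * M) / (2 * σ - 1) := ⟨_, rfl⟩
  have hz0 : 0 ≤ z := by rw [hz]; positivity
  have hzd : (2 * σ - 1) * z = (1 / 2 + σ₀) * LQ + a₁ * M := by
    rw [hz]
    field_simp
  have hz2 : z ≤ 2 * M := by
    have h1 : σ₀ * LQ ≤ 1 / 4 * M := mul_le_mul hσ₀1 hLQM hLQ.le (by norm_num)
    have h2 : a₁ * M ≤ 1 / 4 * M := mul_le_mul_of_nonneg_right ha₁1 hM.le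
    have h3 : 1 / 2 * z ≤ (2 * σ - 1) * z := mul_le_mul_of_nonneg_right hd hz0
    linarith
  have h1 : z / r ≤ (⌈z / r⌉₊ : ℝ) := Nat.le_ceil _
  have h2 : (⌈z / r⌉₊ : ℝ) < z / r + 1 := Nat.ceil_lt_add_one (by positivity)
  have hjr : z ≤ (⌈z / r⌉₊ : ℝ) * r := by rwa [div_le_iff₀ hr] at h1
  have hjr2 : (⌈z / r⌉₊ : ℝ) * r ≤ z + r := by
    have h3 : (⌈z / r⌉₊ : ℝ) * r ≤ (z / r + 1) * r := mul_le_mul_of_nonneg_right h2.le hr.le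
    have h4 : (z / r + 1) * r = z + r := by field_simp
    linarith
  refine ⟨⌈z / r⌉₊, ?_, ?_, ?_, ?_⟩
  · have h3 : z / r ≤ 2 * M / r := div_le_div_of_nonneg_right hz2 hr.le
    linarith
  · rw [← hzd]
    calc (2 * σ - 1) * z ≤ (2 * σ - 1) * ((⌈z / r⌉₊ : ℝ) * r) := mul_le_mul_of_nonneg_left hjr hd0.le
      _ ≤ _ := mul_le_mul_of_nonneg_right (by linarith) (by positivity)
  · linarith
  · have hsm : 0 ≤ 2 * (σ₀ + a₁) * M := by positivity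
    rcases le_or_gt z r with h | h
    · have h3 : (⌈z / r⌉₊ : ℝ) ≤ 1 := by
        have : ⌈z / r⌉₊ ≤ 1 := by
          rw [Nat.ceil_le, Nat.cast_one, div_le_one hr]
          exact h
        exact_mod_cast this
      have h4 : (⌈z / r⌉₊ : ℝ) * r ≤ LQ := by
        have : (⌈z / r⌉₊ : ℝ) * r ≤ 1 * r := mul_le_mul_of_nonneg_right h3 hr.le
        linarith
      have h5 : (2 - 2 * σ) * ((⌈z / r⌉₊ : ℝ) * r) ≤ (2 - 2 * σ) * LQ := mul_le_mul_of_nonneg_left h4 (by linarith)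
      have h6 : (2 - 2 * σ) * LQ ≤ 2 * (1 - σ) / (2 * σ - 1) * LQ := by
        refine mul_le_mul_of_nonneg_right ?_ hLQ.le
        rw [le_div_iff₀ hd0]
        nlinarith
      linarith
    · have h4 : (⌈z / r⌉₊ : ℝ) * r ≤ 2 * z := by linarith
      have h5 : (2 - 2 * σ) * ((⌈z / r⌉₊ : ℝ) * r) ≤ (2 - 2 * σ) * (2 * z) := mul_le_mul_of_nonneg_left h4 (by linarith)
      have h6 : (2 - 2 * σ) * (2 * z) = 2 * (1 - σ) / (2 * σ - 1) * LQ +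
          (2 - 2 * σ) / (2 * σ - 1) * (2 * (σ₀ * LQ + a₁ * M)) := by
        rw [hz]
        field_simp
        ring
      have h7 : (2 - 2 * σ) / (2 * σ - 1) ≤ 1 := by
        rw [div_le_one hd0]
        linarith
      have h8 : σ₀ * LQ ≤ σ₀ * M := mul_le_mul_of_nonneg_left hLQM hσ₀
      have h9 : 0 ≤ 2 * (σ₀ * LQ + a₁ * M) := by positivity
      have h10 : (2 - 2 * σ) / (2 * σ - 1) * (2 * (σ₀ * LQ + a₁ * M)) ≤ 1 * (2 * (σ₀ * LQ + a₁ * M)) :=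
        mul_le_mul_of_nonneg_right h7 h9
      linarith

/-- the small parameters -/
theorem pars3 {ε : ℝ} (hε : 0 < ε) (N N' : ℕ) : ∃ (e₀ e₁ a₁ a₂ c a η σ₀ : ℝ) (J : ℕ), 0 < e₀ ∧ e₀ ≤ 1 ∧
    e₀ ≤ ε ∧ 0 < e₁ ∧ 64 * e₁ = e₀ ∧ 0 < a₁ ∧ 64 * a₁ = e₀ ∧ 0 < a₂ ∧ 2 * (N + N' + 1) * a₂ = a₁ ∧
    0 < c ∧ 1024 * c = e₀ ∧ 2 ≤ a ∧ 3 / (a - 1) ≤ e₀ / 8 ∧ 0 < η ∧ η * (8 * J ^ 2 + 2 * J + 20) = a₁ ∧
    64 * σ₀ = e₀ ∧ 3 / a₁ + 1 ≤ J := by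
  obtain ⟨e₀, he₀⟩ : ∃ e₀ : ℝ, e₀ = min 1 ε := ⟨_, rfl⟩
  have h0 : 0 < e₀ := by rw [he₀]; exact lt_min one_pos hε
  have h1 : e₀ ≤ 1 := by rw [he₀]; exact min_le_left _ _
  refine ⟨e₀, e₀ / 64, e₀ / 64, e₀ / 64 / (2 * (N + N' + 1)), e₀ / 1024,
    1 + 24 / e₀, e₀ / 64 / (8 * ((⌈3 / (e₀ / 64)⌉₊ + 1 : ℕ) : ℝ) ^ 2 + 2 * ((⌈3 / (e₀ / 64)⌉₊ + 1 : ℕ) : ℝ) + 20),
    e₀ / 64, ⌈3 / (e₀ / 64)⌉₊ + 1, h0, h1,
    by rw [he₀]; exact min_le_right _ _, by positivity, by ring, by positivity, by ring,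
    by positivity, by field_simp, by positivity, by ring, ?_, ?_, by positivity, ?_, by ring, ?_⟩
  · have : 1 ≤ 24 / e₀ := by
      rw [le_div_iff₀ h0]
      linarith
    linarith
  · rw [add_sub_cancel_left]
    rw [div_le_div_iff₀ (by positivity) (by norm_num)]
    have : e₀ * (24 / e₀) = 24 := by field_simp
    rw [this]
    norm_num
  · have : (0 : ℝ) < 8 * ((⌈3 / (e₀ / 64)⌉₊ + 1 : ℕ) : ℝ) ^ 2 + 2 * ((⌈3 / (e₀ / 64)⌉₊ + 1 : ℕ) : ℝ) + 20 := by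
      positivity
    rw [div_mul_cancel₀ _ this.ne']
  · push_cast
    have := Nat.le_ceil (3 / (e₀ / 64))
    linarith

end Pool.Agent.T3h90.TW
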