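import Pool.Agent.N846.HU.CoreS
import Pool.Agent.T3h90.TW.Cls2

/-! The bound for large conductors, after the selection of the blocks; the length is a free parameter. -/

set_option autoImplicit false

namespace Pool.Agent.T3h90.TW

open Filter Topology Complex MeasureTheory Set NumberField IsDedekindDomain
open Pool.Agent.TH949.LT (TT Lam VV VV_nonneg VV_le)
open Pool.Agent.N846.DT (PairF co Uc co_abs summ_mono' summ_cs Lam_nonneg half_exp)
open Pool.Agent.N846.DU (VX LV Nv logRS RS GLFamily Rep LV_nonneg one_le_cond shift_cond shift_cond' S_LEFT S_DIAG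
  one_lt_Nv)
open Pool.Agent.N846.LM (Twists)
open Pool.Agent.N846.ZD (Ph Maj Supp S_POW S_CONV S_BLOCK cut_summ data absorb)
open Pool.Agent.N846.LV (logpow8 newcond cross mono2)
open Pool.Agent.N846.HU

theorem core_free (hPow : S_POW) (hConv : S_CONV) (hBl : S_BLOCK) (hL : S_LEFT) (hDi : S_DIAG)
    (hDet : S_DET) (hPl : S_PL)
    (K : Type) [Field K] [NumberField K] (n N n' N' N'' j : ℕ) (hn : 1 ≤ n) {ε : ℝ} (hε : 0 < ε) :
    ∃ c E₀ : ℝ, 0 < c ∧ c ≤ 1 / 4 ∧ 16 * c ≤ ε ∧ 1 ≤ E₀ ∧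
    ∀ (ι : Type) [Fintype ι] (S : ι → Finset (HeightOneSpectrum (𝓞 K)))
      (α : ι → HeightOneSpectrum (𝓞 K) → Fin n → ℂ) (u : ι → VX K → ℂ) (q : ι → ι → ℝ) (κ : ι → ι → Fin N → ℂ)
      (S' : Finset (HeightOneSpectrum (𝓞 K))) (α' : HeightOneSpectrum (𝓞 K) → Fin n' → ℂ) (w : VX K → ℂ) (q' : ℝ)
      (κ' : Fin N'' → ℂ) (qs : ι → ℝ) (μ : ι → Fin N' → ℂ) (L : ι → ℂ → ℂ),
      GLFamily n N S α u q κ → Twists n' N' N'' u S' α' w q' κ' qs μ L →
      ∀ (t : ι → ℝ) (T LC C Q Q' R : ℝ), 0 ≤ T → 0 ≤ LC → 1 ≤ C → 1 ≤ Q → q' * ∏ j, (1 + ‖κ' j‖) ≤ Q' →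
        E₀ ≤ C * Q * Q' → (∀ f, ∏ v ∈ S f, Nv v ≤ C * Q * Q') →
        (∀ f, qs f * ∏ j, (1 + ‖μ f j + t f * I‖) ≤ C) →
        (∀ f g, q f g * ∏ j, (1 + ‖κ f g j + (t f - t g) * I‖) ≤ Q) →
        0 ≤ R → R ≤ 4 * Real.log (C * Q * Q') →
        ∀ (P : Type) [Fintype P] [DecidableEq P] (bp : P → ℕ → TT (VX K) → ℂ) (ii : ι → P) (rr : ι → ℕ)
          (s' : ι → ℂ), Fintype.card P ≤ 3 → (∀ p r, Maj w 2 (bp p r)) →
          (∀ p r, Supp LV (bp p r) (r : ℝ) ((r : ℝ) + 1)) →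
          (∀ f, (rr f : ℝ) ≤ 6 * Real.log (C * Q * Q')) → (∀ f, 1 / 2 ≤ (s' f).re) →
          (∀ f, (s' f).re ≤ 1 / 2 + c) → (∀ f, |(s' f).im - t f| ≤ R) →
          (∀ f, Real.exp (T + max ((rr f : ℝ) - LC / 2) 0) ≤
            ‖Ph LV (bp (ii f) (rr f)) (u f) (s' f)‖) →
        (Fintype.card ι : ℝ) ≤ Real.exp (ε * Real.log (C * Q * Q') +
          max (j * (LC / 2)) (Real.log Q) - 2 * j * T) := by
  classical
  obtain ⟨d, hd, hPl'⟩ := hPl K
  obtain ⟨θ, c, a₁, δ, η, m, J, hθ0, hθ1, hθε, hc0, hc1, hcε, hcj, ha₁0, ha₁1, ha₁ε, hδ0, hδθ, hm, hJ, hη0, hηJ⟩ :=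
    params hε n d j hn hd
  have hJ0 : (0 : ℝ) ≤ (J : ℝ) ^ 2 := sq_nonneg _
  have hηJ' : 0 ≤ η * (J : ℝ) ^ 2 := by positivity
  have hη20 : 20 * η ≤ a₁ := by linarith
  have hn0 : (0 : ℝ) < n := by exact_mod_cast hn
  obtain ⟨σ₀, hσ₀⟩ : ∃ σ₀ : ℝ, σ₀ = 5 / θ + 2 * c := ⟨_, rfl⟩
  have h5θ : 0 < 5 / θ := by positivity
  have h0 : 0 < σ₀ := by linarith
  have h5 : 5 ≤ (σ₀ - 2 * c) * θ := by
    rw [hσ₀]
    have : (5 / θ + 2 * c - 2 * c) * θ = 5 := by field_simp; ring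
    linarith
  obtain ⟨K₁, hK₁, hdat⟩ := data hL hDi K n N n' N' N'' (σ₀ := σ₀) (σ₁ := 1) (c := c) (η := η) h0 one_pos hc0 hη0
  obtain ⟨Cb, hCb0, hBlk⟩ := hBl σ₀ c (N * (1 / 2 + σ₀)) J h0 hc0 hc1 (by positivity)
  obtain ⟨E₁, hE₁1, hE₁⟩ := absorb hη0 (K₁ + Cb + 36 * 2 ^ m)
  obtain ⟨E₂, hE₂1, hE₂⟩ := logpow8 (N + N') ha₁0
  have hlog2 : 0 < Real.log 2 := Real.log_pos (by norm_num)
  obtain ⟨E₃, hE₃⟩ : ∃ E₃ : ℝ, E₃ = 2 + (m + 1) * Real.log 2 / δ + 2 / ε + 2 * (m * n) / η := ⟨_, rfl⟩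
  refine ⟨c, max (max E₁ E₂) (Real.exp E₃), hc0, hc1, hcε,
    hE₁1.trans ((le_max_left _ _).trans (le_max_left _ _)), ?_⟩
  intro ι _ S α u q κ S' α' w q' κ' qs μ L h hT t T LC C Q Q' R hT0 hLC0 hC hQ hcQ' hGE hram hcC hcQ hR0 hR4
    P _ _ bp ii rr s' hP3 hbpM hbpS hrr hre1 hre2 him hPh
  have hGE1 : E₁ ≤ C * Q * Q' := ((le_max_left _ _).trans (le_max_left _ _)).trans hGE
  have hGE2 : E₂ ≤ C * Q * Q' := ((le_max_right _ _).trans (le_max_left _ _)).trans hGE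
  have hGE3 : Real.exp E₃ ≤ C * Q * Q' := (le_max_right _ _).trans hGE
  have hC0 : 0 < C := by linarith
  have hQ0 : 0 < Q := by linarith
  have hQ'1 : 1 ≤ Q' := by
    have h2 := one_le_cond (κ := κ') hT.self.one_le 0
    simp only [add_zero] at h2
    linarith
  have hQ'0 : 0 < Q' := by linarith
  have hE₂' := hE₂ _ hGE2
  have hCG : C ≤ C * Q * Q' := by
    have h1 : C ≤ C * Q := le_mul_of_one_le_right hC0.le hQ
    exact h1.trans (le_mul_of_one_le_right (by positivity) hQ'1)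
  have hG1 : 1 ≤ C * Q * Q' := hC.trans hCG
  have hG0 : 0 < C * Q * Q' := by linarith
  obtain ⟨hAM, hAM1⟩ := hE₁ _ hGE1
  have hMk' : E₃ ≤ Real.log (C * Q * Q') := (Real.le_log_iff_exp_le hG0).2 hGE3
  have hGη : (C * Q * Q') ^ η = Real.exp (η * Real.log (C * Q * Q')) := by
    rw [Real.rpow_def_of_pos hG0, mul_comm]
  have hexpM : Real.exp (Real.log (C * Q * Q')) = C * Q * Q' := Real.exp_log hG0
  rw [← hexpM] at hram
  obtain ⟨hD1, hDw, -, -⟩ := hdat ι S α u q κ S' α' w q' κ' qs μ L h hT t C Q Q' hC hQ hcQ' hcC hcQ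
  rw [hGη] at hD1 hDw
  obtain ⟨M, hM⟩ : ∃ M, M = Real.log (C * Q * Q') := ⟨_, rfl⟩
  rw [← hM] at hD1 hDw hMk' hAM hAM1 hE₂' hram hR4 hrr ⊢
  clear hexpM
  -- M is large
  have p2 : 0 ≤ (m + 1) * Real.log 2 / δ := by positivity
  have p3 : 0 < 2 / ε := by positivity
  have p4 : 0 ≤ 2 * (m * n) / η := by positivity
  have hM2 : (m + 1) * Real.log 2 ≤ δ * M := by
    have h1 : (m + 1) * Real.log 2 / δ ≤ M := by linarith
    rw [div_le_iff₀ hδ0] at h1
    linarith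
  have hM3 : 2 ≤ ε * M := by
    have h1 : 2 / ε ≤ M := by linarith
    rw [div_le_iff₀ hε] at h1
    linarith
  have hM4 : 2 * (m * n) ≤ η * M := by
    have h1 : 2 * (m * n) / η ≤ M := by linarith
    rw [div_le_iff₀ hη0] at h1
    linarith
  have hM5 : 2 ≤ M := by linarith
  have hM0 : 0 ≤ M := by linarith
  clear hMk' p2 p3 p4 hE₃
  have hMpos : 0 < M := by linarith
  have hK₁0 : 0 ≤ K₁ := by linarith
  have h2m : (1 : ℝ) ≤ 2 ^ m := one_le_pow₀ (by norm_num)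
  have hKM : K₁ ≤ Real.exp (η * M) := le_trans (by linarith) hAM
  have hCbM : Cb ≤ Real.exp (η * M) := le_trans (by linarith) hAM
  have h8M : 8 ≤ Real.exp (η * M) := le_trans (by linarith) hAM
  have hηM : 0 ≤ η * M := by positivity
  have h36 : 36 * 2 ^ m * (M + 1) ≤ Real.exp (η * M) := by
    refine le_trans ?_ hAM1
    exact mul_le_mul_of_nonneg_right (by linarith) (by linarith)
  have hKG : K₁ * Real.exp (η * M) ≤ Real.exp (2 * η * M) := by
    calc K₁ * Real.exp (η * M) ≤ Real.exp (η * M) * Real.exp (η * M) :=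
          mul_le_mul_of_nonneg_right hKM (Real.exp_pos _).le
      _ = _ := by rw [← Real.exp_add]; congr 1; ring
  have hwsum : Summable fun x => ‖w x‖ ^ 2 * Real.exp (-((1 + c) * LV x)) := hT.rep.summable _ (by linarith)
  have hwsum2 : Summable fun x => ‖w x‖ ^ 2 * Real.exp (-((1 + 2 * c) * LV x)) := hT.rep.summable _ (by linarith)
  have husum : ∀ f, Summable fun x => ‖u f x‖ ^ 2 * Real.exp (-((1 + c) * LV x)) := fun f =>
    (h.rep f).summable _ (by linarith)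
  have huw : ∀ f, Summable fun v => ‖u f v‖ * ‖w v‖ * Real.exp (-((1 + c) * LV v)) := fun f =>
    summ_cs (husum f) hwsum
  have hD1' := fun f => (hD1 f).trans hKG
  have hDw' := hDw.trans hKG
  have hD' := mono2 hc0.le LV_nonneg hwsum hwsum2 hDw'
  obtain ⟨C₂, Q₁, hC₂, hQ₁, hC₂1, hQ₁1, hMM₁, hM₁2, hLQ₁0, hLQ₁M, hLQ₁Q⟩ :=
    newcond N N' hC hQ hQ'1 hR0 hR4 hM ha₁0.le ha₁1 hE₂'
  have hG₁0 : 0 < C₂ * Q₁ * Q' := by positivity
  have hQ₁0 : 0 < Q₁ := by linarith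
  have hGη₁ : (C₂ * Q₁ * Q') ^ η = Real.exp (η * Real.log (C₂ * Q₁ * Q')) := by
    rw [Real.rpow_def_of_pos hG₁0, mul_comm]
  have hQ₁pow : Q₁ ^ (1 / 2 + σ₀) = Real.exp ((1 / 2 + σ₀) * Real.log Q₁) := by
    rw [Real.rpow_def_of_pos hQ₁0, mul_comm]
  obtain ⟨M₁, hM₁⟩ : ∃ M₁, M₁ = Real.log (C₂ * Q₁ * Q') := ⟨_, rfl⟩
  obtain ⟨LQ₁, hLQ₁⟩ : ∃ LQ₁, LQ₁ = Real.log Q₁ := ⟨_, rfl⟩
  rw [← hM₁] at hMM₁ hM₁2 hLQ₁M hGη₁
  rw [← hLQ₁] at hLQ₁0 hLQ₁M hLQ₁Q hQ₁pow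
  have hM₁0 : 0 < M₁ := by linarith
  have hq1 : ∀ f g, 1 ≤ q f g := by
    intro f g
    by_cases hfg : f = g
    · rw [hfg]
      exact (h.self g).one_le
    · exact (h.pair f g hfg).one_le
  have f2 : ∀ f, qs f * ∏ j, (1 + ‖μ f j + (s' f).im * I‖) ≤ C₂ := by
    intro f
    have h3 := shift_cond' (κ := μ f) (hT.rs f).one_le (z := (t f : ℂ) * I)
      (w := (((s' f).im - t f : ℝ) : ℂ) * I) (c := R) (by
        rw [norm_mul, Complex.norm_I, mul_one, Complex.norm_real, Real.norm_eq_abs]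
        exact him f)
    rw [hC₂]
    refine le_trans (le_of_eq ?_) (h3.trans (mul_le_mul_of_nonneg_left (hcC f) (by positivity)))
    congr 1
    refine Finset.prod_congr rfl fun j _ => ?_
    congr 2
    push_cast
    ring
  have f3 : ∀ f g, q f g * ∏ j, (1 + ‖κ f g j + ((s' f).im - (s' g).im) * I‖) ≤ Q₁ := by
    intro f g
    have h3 := shift_cond' (κ := κ f g) (hq1 f g) (z := ((t f : ℂ) - t g) * I)
      (w := ((((s' f).im - t f) - ((s' g).im - t g) : ℝ) : ℂ) * I) (c := 2 * R) (by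
        rw [norm_mul, Complex.norm_I, mul_one, Complex.norm_real, Real.norm_eq_abs]
        refine (abs_sub _ _).trans ?_
        linarith [him f, him g])
    rw [hQ₁]
    refine le_trans (le_of_eq ?_) (h3.trans (mul_le_mul_of_nonneg_left (hcQ f g) (by positivity)))
    congr 1
    refine Finset.prod_congr rfl fun j _ => ?_
    congr 2
    push_cast
    ring
  obtain ⟨-, -, ⟨F, hF⟩, -⟩ := hdat ι S α u q κ S' α' w q' κ' qs μ L h hT (fun f => (s' f).im) C₂ Q₁ Q'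
    hC₂1 hQ₁1 hcQ' f2 f3
  clear hdat
  have hmono : Real.exp (2 * η * M) ≤ Real.exp (2 * η * M₁) :=
    Real.exp_le_exp.2 (mul_le_mul_of_nonneg_left hMM₁ (by positivity))
  have hmono1 : Real.exp (η * M) ≤ Real.exp (η * M₁) :=
    Real.exp_le_exp.2 (mul_le_mul_of_nonneg_left hMM₁ hη0.le)
  have hKG₁ : K₁ * Real.exp (η * M₁) ≤ Real.exp (2 * η * M₁) := by
    calc K₁ * Real.exp (η * M₁) ≤ Real.exp (η * M₁) * Real.exp (η * M₁) :=
          mul_le_mul_of_nonneg_right (hKM.trans hmono1) (Real.exp_pos _).le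
      _ = _ := by rw [← Real.exp_add]; congr 1; ring
  have hFb : ∀ f g, f ≠ g → ∀ v : ℝ, ‖F f g (((-σ₀ : ℝ) : ℂ) + (((s' f).im - (s' g).im) + v : ℝ) * I)‖ ≤
      Real.exp ((1 / 2 + σ₀) * LQ₁ + 2 * η * M₁) * (1 + |v|) ^ (N * (1 / 2 + σ₀)) := by
    intro f g hfg v
    refine ((hF f g hfg).2 v).trans (mul_le_mul_of_nonneg_right ?_ (by positivity))
    rw [Real.exp_add, ← hQ₁pow, hGη₁]
    calc _ = Q₁ ^ (1 / 2 + σ₀) * (K₁ * Real.exp (η * M₁)) := by ring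
      _ ≤ _ := mul_le_mul_of_nonneg_left hKG₁ (by positivity)
  -- the multipliers
  obtain ⟨V, hVm, hVb⟩ := hPl' m (Real.exp (δ * M)) (Real.one_le_exp (by positivity))
  have hθM : 0 ≤ θ * M₁ := by positivity
  have hθM16 : 16 * (θ * M₁) ≤ M₁ := by
    have : 16 * θ * M₁ ≤ 1 * M₁ := mul_le_mul_of_nonneg_right hθ1 hM₁0.le
    linarith
  have hov : n * (d * ((m + 1) * Real.log 2 + δ * M)) ≤ θ * M := by
    have h1 : n * (d * ((m + 1) * Real.log 2 + δ * M)) ≤ n * (d * (δ * M + δ * M)) :=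
      mul_le_mul_of_nonneg_left (mul_le_mul_of_nonneg_left (by linarith) (Nat.cast_nonneg d)) hn0.le
    have h2 : n * (d * (δ * M + δ * M)) = 2 * n * d * δ * M := by ring
    rw [h2, hδθ] at h1
    exact h1
  have hθMM₁ : θ * M ≤ θ * M₁ := mul_le_mul_of_nonneg_left hMM₁ hθ0.le
  have hj0 : (0 : ℝ) ≤ j := Nat.cast_nonneg j
  have hchoose := fun f => sel_places (n := n) (d := d) (m := m) (δ := δ) (M := M)
    (t := max (LQ₁ + θ * M₁ + 1 - j * rr f) 0) (V := V) (S := S f) hn hδ0 hMpos hVm hVb (hram f) hm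
    (le_max_right _ _) (max_le (by
      have : 0 ≤ (j : ℝ) * rr f := by positivity
      linarith) (by linarith))
  choose UU hUV hUS hU1 hU2 using hchoose
  -- the classes
  have hfin := cnt2 (fun f => (ii f, rr f, UU f)) ((Finset.univ : Finset P) ×ˢ
    (Finset.range (⌊6 * M⌋₊ + 1) ×ˢ V.powerset)) (fun f => by
      simp only [Finset.mem_product, Finset.mem_univ, Finset.mem_range, Finset.mem_powerset, true_and]
      have := Nat.le_floor (hrr f)
      exact ⟨by omega, hUV f⟩) (X := 2 * Real.exp ((3 + 20 * J ^ 2) * (η * M₁) +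
        (max (j * (LC / 2)) LQ₁ - 2 * j * T + 2 * θ * M₁ + 1 + θ * M₁))) (by
    rintro ⟨i, r, U⟩
    by_cases hemp : IsEmpty {f // (ii f, rr f, UU f) = (i, r, U)}
    · rw [Fintype.card_eq_zero, Nat.cast_zero]
      positivity
    rw [not_isEmpty_iff] at hemp
    obtain ⟨⟨f0, hf0⟩⟩ := hemp
    simp only [Prod.mk.injEq] at hf0
    obtain ⟨hf1, hf2, hf3⟩ := hf0
    have hr6 : (r : ℝ) ≤ 6 * M := by rw [← hf2]; exact hrr f0
    have hUV' : U ⊆ V := by rw [← hf3]; exact hUV f0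
    have hu1 := hU1 f0
    have hu2 := hU2 f0
    rw [hf3, hf2] at hu1 hu2
    have hmaxr : 0 ≤ max ((r : ℝ) - LC / 2) 0 := le_max_right _ _
    obtain ⟨hh, hhdef⟩ : ∃ hh : ℝ, hh = n * ∑ v ∈ U, Real.log (Nv v) := ⟨_, rfl⟩
    rw [← hhdef] at hu1 hu2
    have hjr : 0 ≤ (j : ℝ) * r := by positivity
    have hh0 : 0 ≤ hh := (le_max_right _ _).trans hu1
    have ht1 : max (LQ₁ + θ * M₁ + 1 - j * r) 0 ≤ LQ₁ + θ * M₁ + 1 := max_le (by linarith) (by linarith)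
    have hh4 : hh ≤ 4 * M₁ := by linarith
    have hjr6 : (j : ℝ) * r ≤ j * (6 * M₁) := mul_le_mul_of_nonneg_left (by linarith) hj0
    have h2 := one_class3 hPow hConv hDet (σ₀ := σ₀) (c := c) (η := η) (θ := θ) (j := j) (J := J) hc0 hc1 h5 hθ0
      (by linarith) hBlk (ι := {f // (ii f, rr f, UU f) = (i, r, U)}) (S := fun f => S f.1) (α := fun f => α f.1)
      (u := fun f => u f.1) (s := fun f => s' f.1) (F := fun f g => F f.1 g.1) (w := w) (b := bp i r) (M := M₁)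
      (LQ := LQ₁) (LC := LC) (lam := T + max ((r : ℝ) - LC / 2) 0) (v := T) (o := θ * M₁) (h := hh)
      (r := r) (V := V) (U := U) hUV' (fun f => h.rep f.1) (fun f v hv => by
        have h4 := f.2
        simp only [Prod.mk.injEq] at h4
        refine hUS f.1 v ?_
        rw [h4.2.2]
        exact hv) hhdef hh0 hh4 hM₁0.le hLQ₁0 hLQ₁M (fun f => hre1 f.1)
      (fun f => hre2 f.1) (fun f => husum f.1)
      (fun f => (hD1' f.1).trans hmono) hwsum2 (hD'.trans hmono) (by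
        rw [hVm]
        have : η * M ≤ η * M₁ := mul_le_mul_of_nonneg_left hMM₁ hη0.le
        linarith) (fun f => huw f.1)
      (fun f g hfg => (hF f.1 g.1 fun h' => hfg (Subtype.ext h')).1)
      (fun f g hfg => hFb f.1 g.1 fun h' => hfg (Subtype.ext h')) (hCbM.trans hmono1) (h8M.trans hmono1)
      (by linarith) (by omega) (by rw [hVm]; omega)
      (hbpM i r) (hbpS i r) (fun f => by
        have h3 := hPh f.1
        have h4 := f.2
        simp only [Prod.mk.injEq] at h4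
        rw [h4.1, h4.2.1] at h3
        exact h3) (by
        have := (le_max_left (LQ₁ + θ * M₁ + 1 - j * r) 0).trans hu1
        linarith) (by
        have h3 : j * r + max (LQ₁ + θ * M₁ + 1 - j * r) 0 ≤ max (j * r : ℝ) (LQ₁ + θ * M₁ + 1) := by
          rcases le_total (LQ₁ + θ * M₁ + 1 - j * r) 0 with h4 | h4
          · rw [max_eq_right h4, add_zero]
            exact le_max_left _ _
          · rw [max_eq_left h4]
            refine le_trans (le_of_eq ?_) (le_max_right _ _)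
            ring
        linarith) (by
        have h3 : c * (18 * j + 20) * M₁ ≤ θ * M₁ := mul_le_mul_of_nonneg_right hcj hM₁0.le
        have h4 : c * (j * r) ≤ c * (j * (6 * M₁)) := mul_le_mul_of_nonneg_left hjr6 hc0.le
        have h5 : c * hh ≤ c * (4 * M₁) := mul_le_mul_of_nonneg_left hh4 hc0.le
        linarith) le_rfl
    exact h2)
  refine hfin.trans ?_
  rw [Finset.card_product, Finset.card_product, Finset.card_univ, Finset.card_range,
    Finset.card_powerset, hVm]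
  have h36' : (Fintype.card P : ℝ) * ((⌊6 * M⌋₊ + 1) * 2 ^ m) * 2 ≤ Real.exp (η * M) := by
    refine le_trans ?_ h36
    have h2 := Nat.floor_le (by positivity : (0 : ℝ) ≤ 6 * M)
    have h3 : ((⌊6 * M⌋₊ : ℝ) + 1) * 2 ^ m ≤ (6 * (M + 1)) * 2 ^ m :=
      mul_le_mul_of_nonneg_right (by linarith) (by positivity)
    have h4 : (Fintype.card P : ℝ) ≤ 3 := by exact_mod_cast hP3
    have h5 : (Fintype.card P : ℝ) * (((⌊6 * M⌋₊ : ℝ) + 1) * 2 ^ m) ≤ 3 * ((6 * (M + 1)) * 2 ^ m) :=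
      mul_le_mul h4 h3 (by positivity) (by norm_num)
    linarith
  push_cast
  calc _ = (Fintype.card P : ℝ) * (((⌊6 * M⌋₊ : ℝ) + 1) * 2 ^ m) * 2 * Real.exp ((3 + 20 * J ^ 2) * (η * M₁) +
        (max (j * (LC / 2)) LQ₁ - 2 * j * T + 2 * θ * M₁ + 1 + θ * M₁)) := by ring
    _ ≤ Real.exp (η * M) * Real.exp ((3 + 20 * J ^ 2) * (η * M₁) +
        (max (j * (LC / 2)) LQ₁ - 2 * j * T + 2 * θ * M₁ + 1 + θ * M₁)) :=
        mul_le_mul_of_nonneg_right h36' (Real.exp_pos _).le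
    _ = Real.exp (η * M + ((3 + 20 * J ^ 2) * (η * M₁) +
        (max (j * (LC / 2)) LQ₁ - 2 * j * T + 2 * θ * M₁ + 1 + θ * M₁))) := (Real.exp_add _ _).symm
    _ ≤ _ := by
        refine Real.exp_le_exp.2 ?_
        have h2 : max (j * (LC / 2)) LQ₁ ≤ max (j * (LC / 2)) (Real.log Q) + a₁ * M := by
          refine max_le ?_ ?_
          · have := le_max_left (j * (LC / 2)) (Real.log Q)
            have h3 : 0 ≤ a₁ * M := by positivity
            linarith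
          · have := le_max_right (j * (LC / 2)) (Real.log Q)
            linarith
        have h3 : η * M ≤ η * M₁ := mul_le_mul_of_nonneg_left hMM₁ hη0.le
        have h4 : η * M₁ + (3 + 20 * J ^ 2) * (η * M₁) ≤ a₁ * M₁ := by
          have h5 : η * (20 * J ^ 2 + 20) * M₁ = a₁ * M₁ := by rw [hηJ]
          have h6 : 0 ≤ η * M₁ := by positivity
          have h7 : η * M₁ + (3 + 20 * (J : ℝ) ^ 2) * (η * M₁) = η * (20 * (J : ℝ) ^ 2 + 20) * M₁ - 16 * (η * M₁) := by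
            ring
          rw [h7, h5]
          linarith only [h6]
        have h5 : a₁ * M₁ ≤ a₁ * (2 * M) := mul_le_mul_of_nonneg_left hM₁2 ha₁0.le
        have h6 : θ * M₁ ≤ θ * (2 * M) := mul_le_mul_of_nonneg_left hM₁2 hθ0.le
        have h7 : 32 * a₁ * M ≤ ε * M := mul_le_mul_of_nonneg_right ha₁ε hM0
        have h8 : 16 * θ * M ≤ ε * M := mul_le_mul_of_nonneg_right hθε hM0
        linarith

end Pool.Agent.T3h90.TW
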