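import Pool.Agent.T3h90.TW.Core2
import Pool.Agent.N846.HU.Final
import Pool.Agent.N846.DT.Final

/-! The density theorem: arbitrary families. -/

set_option autoImplicit false

namespace Pool.Agent.T3h90.TW

open Filter Topology Complex MeasureTheory Set NumberField IsDedekindDomain
open Pool.Agent.N846.DT (finite_of_bound)
open Pool.Agent.N846.DU (VX LV Nv logRS RS GLFamily Rep LV_nonneg one_le_cond shift_cond shift_cond' S_LEFT S_DIAG)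
open Pool.Agent.N846.LM (Twists)
open Pool.Agent.N846.ZD (S_POW S_MOLL S_MB S_CONV S_BLOCK S_CVX)
open Pool.Agent.N846.LV (S_LVD)
open Pool.Agent.N846.HU (S_DET S_PL twists_sub)

/-- the bound -/
noncomputable def bd (σ C Q : ℝ) : ℝ := max (C ^ (1 - σ)) (Q ^ az σ)

theorem bd_exp {σ C Q : ℝ} (hC : 0 < C) (hQ : 0 < Q) :
    bd σ C Q = Real.exp (max ((1 - σ) * Real.log C) (az σ * Real.log Q)) := by
  unfold bd
  rw [Real.rpow_def_of_pos hC, Real.rpow_def_of_pos hQ, Real.exp_monotone.map_max, mul_comm (Real.log C),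
    mul_comm (Real.log Q)]

theorem bd_pos {σ C Q : ℝ} (hC : 0 < C) : 0 < bd σ C Q :=
  lt_of_lt_of_le (Real.rpow_pos_of_pos hC _) (le_max_left _ _)

/-- the zero density theorem -/
theorem zd_set (hPow : S_POW) (hMo : S_MOLL) (hMb : S_MB) (hConv : S_CONV) (hBl : S_BLOCK) (hL : S_LEFT)
    (hDi : S_DIAG) (hLvd : S_LVD) (hDet : S_DET) (hPl : S_PL) (hCv : S_CVX)
    (K : Type) [Field K] [NumberField K] (n N n' N' N'' : ℕ) (hn : 1 ≤ n) {σ ε : ℝ} (hσ : 1 / 2 < σ)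
    (hσ1 : σ ≤ 1) (hε : 0 < ε) : ∃ A : ℝ, 1 ≤ A ∧
    ∀ (ι : Type) (S : ι → Finset (HeightOneSpectrum (𝓞 K)))
      (α : ι → HeightOneSpectrum (𝓞 K) → Fin n → ℂ) (u : ι → VX K → ℂ) (q : ι → ι → ℝ) (κ : ι → ι → Fin N → ℂ)
      (S' : Finset (HeightOneSpectrum (𝓞 K))) (α' : HeightOneSpectrum (𝓞 K) → Fin n' → ℂ) (w : VX K → ℂ) (q' : ℝ)
      (κ' : Fin N'' → ℂ) (qs : ι → ℝ) (μ : ι → Fin N' → ℂ) (L : ι → ℂ → ℂ),
      GLFamily n N S α u q κ → Twists n' N' N'' u S' α' w q' κ' qs μ L →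
      ∀ (T : Set ι) (ρ : ι → ℂ) (C Q Q' : ℝ), 1 ≤ C → 1 ≤ Q → 2 * Real.log Q ≤ Real.log C →
        q' * ∏ j, (1 + ‖κ' j‖) ≤ Q' → A ≤ C * Q * Q' → (∀ f ∈ T, ∏ v ∈ S f, Nv v ≤ C * Q * Q') →
        (∀ f ∈ T, L f (ρ f) = 0 ∧ σ ≤ (ρ f).re) →
        (∀ f ∈ T, qs f * ∏ j, (1 + ‖μ f j + (ρ f).im * I‖) ≤ C) →
        (∀ f ∈ T, ∀ g ∈ T, q f g * ∏ j, (1 + ‖κ f g j + ((ρ f).im - (ρ g).im) * I‖) ≤ Q) →
        T.Finite ∧ (T.ncard : ℝ) ≤ (C * Q * Q') ^ ε * bd σ C Q := by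
  obtain ⟨E₀, hE1, hE⟩ := core hPow hMo hMb hConv hBl hL hDi hLvd hDet hPl hCv K n N n' N' N'' hn hσ hσ1 hε
  refine ⟨E₀, hE1, ?_⟩
  intro ι S α u q κ S' α' w q' κ' qs μ L h hT T ρ C Q Q' hC hQ hjC hcQ' hGE hram hz hcC hcQ
  have hC0 : 0 < C := by linarith
  have hQ0 : 0 < Q := by linarith
  have hG0 : 0 < C * Q * Q' := by linarith
  refine finite_of_bound fun T' hT' => ?_
  have h1 := hE {f // f ∈ T'} (fun f => S f.1) (fun f => α f.1) (fun f => u f.1) (fun f g => q f.1 g.1)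
    (fun f g => κ f.1 g.1) S' α' w q' κ' (fun f => qs f.1) (fun f => μ f.1) (fun f => L f.1)
    (h.sub (fun f : {f // f ∈ T'} => f.1) Subtype.val_injective) (twists_sub hT T') (fun f => ρ f.1) C Q Q'
    hC hQ hjC hcQ' hGE (fun f => hram f.1 (hT' _ f.2)) (fun f => (hz f.1 (hT' _ f.2)).1)
    (fun f => (hz f.1 (hT' _ f.2)).2) (fun f => hcC f.1 (hT' _ f.2))
    (fun f g => hcQ f.1 (hT' _ f.2) g.1 (hT' _ g.2))
  rw [Fintype.card_coe] at h1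
  refine h1.trans (le_of_eq ?_)
  rw [Real.rpow_def_of_pos hG0, bd_exp hC0 hQ0, ← Real.exp_add]
  congr 1
  ring

/-- large values on the critical line -/
theorem lv_set (hPow : S_POW) (hConv : S_CONV) (hBl : S_BLOCK) (hL : S_LEFT) (hDi : S_DIAG) (hLvd : S_LVD)
    (hDet : S_DET) (hPl : S_PL)
    (K : Type) [Field K] [NumberField K] (n N n' N' N'' : ℕ) (hn : 1 ≤ n) {ε : ℝ} (hε : 0 < ε) : ∃ A : ℝ, 1 ≤ A ∧
    ∀ (ι : Type) (S : ι → Finset (HeightOneSpectrum (𝓞 K)))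
      (α : ι → HeightOneSpectrum (𝓞 K) → Fin n → ℂ) (u : ι → VX K → ℂ) (q : ι → ι → ℝ) (κ : ι → ι → Fin N → ℂ)
      (S' : Finset (HeightOneSpectrum (𝓞 K))) (α' : HeightOneSpectrum (𝓞 K) → Fin n' → ℂ) (w : VX K → ℂ) (q' : ℝ)
      (κ' : Fin N'' → ℂ) (qs : ι → ℝ) (μ : ι → Fin N' → ℂ) (L : ι → ℂ → ℂ),
      GLFamily n N S α u q κ → Twists n' N' N'' u S' α' w q' κ' qs μ L →
      ∀ (T : Set ι) (t : ι → ℝ) (v C Q Q' : ℝ), 0 ≤ v → 1 ≤ C → 1 ≤ Q → 2 * Real.log Q ≤ Real.log C →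
        q' * ∏ j, (1 + ‖κ' j‖) ≤ Q' → A ≤ C * Q * Q' → (∀ f ∈ T, ∏ v ∈ S f, Nv v ≤ C * Q * Q') →
        (∀ f ∈ T, (C * Q * Q') ^ ε * C ^ v ≤ ‖L f (1 / 2 + t f * I)‖) →
        (∀ f ∈ T, qs f * ∏ j, (1 + ‖μ f j + t f * I‖) ≤ C) →
        (∀ f ∈ T, ∀ g ∈ T, q f g * ∏ j, (1 + ‖κ f g j + (t f - t g) * I‖) ≤ Q) →
        T.Finite ∧ (T.ncard : ℝ) ≤ (C * Q * Q') ^ ε * C ^ (1 / 2 - 2 * v) := by
  obtain ⟨E₀, hE1, hE⟩ := Pool.Agent.N846.HU.core0 hPow hConv hBl hL hDi hLvd hDet hPl K n N n' N' N'' 1 hn hε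
  refine ⟨E₀, hE1, ?_⟩
  intro ι S α u q κ S' α' w q' κ' qs μ L h hT T t v C Q Q' hv hC hQ hjC hcQ' hGE hram hz hcC hcQ
  have hC0 : 0 < C := by linarith
  have hQ0 : 0 < Q := by linarith
  have hG0 : 0 < C * Q * Q' := by linarith
  have hlC := Real.log_nonneg hC
  refine finite_of_bound fun T' hT' => ?_
  have h1 := hE {f // f ∈ T'} (fun f => S f.1) (fun f => α f.1) (fun f => u f.1) (fun f g => q f.1 g.1)
    (fun f g => κ f.1 g.1) S' α' w q' κ' (fun f => qs f.1) (fun f => μ f.1) (fun f => L f.1)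
    (h.sub (fun f : {f // f ∈ T'} => f.1) Subtype.val_injective) (twists_sub hT T') (fun f => t f.1)
    (v * Real.log C) C Q Q' (by positivity)
    hC hQ hcQ' hGE (fun f => hram f.1 (hT' _ f.2)) (fun f => by
      refine le_trans (le_of_eq ?_) (hz f.1 (hT' _ f.2))
      rw [Real.rpow_def_of_pos hG0, Real.rpow_def_of_pos hC0, ← Real.exp_add]
      congr 1
      ring) (fun f => hcC f.1 (hT' _ f.2))
    (fun f g => hcQ f.1 (hT' _ f.2) g.1 (hT' _ g.2))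
  rw [Fintype.card_coe] at h1
  refine h1.trans (le_of_eq ?_)
  rw [max_eq_left (by push_cast; linarith), Real.rpow_def_of_pos hG0, Real.rpow_def_of_pos hC0, ← Real.exp_add]
  congr 1
  push_cast
  ring

end Pool.Agent.T3h90.TW
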