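import Pool.Agent.T3h90.TW.Val
import Pool.Agent.T3h90.CI.Tl2

/-! Exceptional values between the critical line and the half plane. -/

set_option autoImplicit false

namespace Pool.Agent.T3h90.TW

open Filter Topology Complex MeasureTheory Set NumberField IsDedekindDomain
open Pool.Agent.N846.DU (VX LV Nv logRS RS GLFamily Rep LV_nonneg one_le_cond shift_cond shift_cond' S_LEFT S_DIAG)
open Pool.Agent.N846.LM (Twists)
open Pool.Agent.N846.ZD (S_POW S_MOLL S_MB S_CONV S_BLOCK S_CVX S_TC logpow)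
open Pool.Agent.N846.LV (S_LVD)
open Pool.Agent.N846.HU (S_DET S_PL twists_sub)
open Pool.Agent.T3h90.CI (line tl2)

/-- one `L`-function: convexity between the critical line and a line where it is small -/
theorem mid (hL : S_LEFT) (hDi : S_DIAG) (hCv : S_CVX) (K : Type) [Field K] [NumberField K]
    (n N n' N' N'' : ℕ) {σ : ℝ} (hσ : 1 / 2 < σ) (hσ1 : σ ≤ 1) : ∃ A : ℝ, 1 ≤ A ∧
    ∀ (ι : Type) (S : ι → Finset (HeightOneSpectrum (𝓞 K)))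
      (α : ι → HeightOneSpectrum (𝓞 K) → Fin n → ℂ) (u : ι → VX K → ℂ) (q : ι → ι → ℝ) (κ : ι → ι → Fin N → ℂ)
      (S' : Finset (HeightOneSpectrum (𝓞 K))) (α' : HeightOneSpectrum (𝓞 K) → Fin n' → ℂ) (w : VX K → ℂ) (q' : ℝ)
      (κ' : Fin N'' → ℂ) (qs : ι → ℝ) (μ : ι → Fin N' → ℂ) (L : ι → ℂ → ℂ),
      GLFamily n N S α u q κ → Twists n' N' N'' u S' α' w q' κ' qs μ L →
      ∀ (f : ι) (t C Q Q' H₁ H₂ : ℝ), 1 ≤ C → 1 ≤ Q → q' * ∏ j, (1 + ‖κ' j‖) ≤ Q' →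
        qs f * ∏ j, (1 + ‖μ f j + t * I‖) ≤ C → q f f * ∏ j, (1 + ‖κ f f j‖) ≤ Q → A ≤ C * Q * Q' →
        1 ≤ H₁ → 1 ≤ H₂ →
        (∀ v : ℝ, |v| ≤ Real.log (C * Q * Q') → ‖L f (((1 / 2 : ℝ) : ℂ) + (t + v : ℝ) * I)‖ ≤ H₁) →
        (∀ v : ℝ, |v| ≤ Real.log (C * Q * Q') → ‖L f ((σ : ℂ) + (t + v : ℝ) * I)‖ ≤ H₂) →
        ∀ s : ℂ, 1 / 2 ≤ s.re → s.re ≤ σ → s.im = t →
          ‖L f s‖ ≤ A * (H₁ ^ ((σ - s.re) / (σ - 1 / 2)) * H₂ ^ ((s.re - 1 / 2) / (σ - 1 / 2))) := by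
  obtain ⟨A₀, hA₀1, hA₀⟩ := line hL hDi hCv K n N n' N' N''
  obtain ⟨C₂, hC₂1, hC₂⟩ := tl2 (a := 1 / 2) (b := σ) (A := 4 * N') (by norm_num) hσ hσ1 (by positivity)
  refine ⟨max (max A₀ (Real.exp 8)) C₂, hA₀1.trans ((le_max_left _ _).trans (le_max_left _ _)), ?_⟩
  intro ι S α u q κ S' α' w q' κ' qs μ L h hT f t C Q Q' H₁ H₂ hC hQ hcQ' hcC hcQ hAG hH1 hH2 hb1 hb2 s hs1 hs2 hs3
  have hAG0 : A₀ ≤ C * Q * Q' := ((le_max_left _ _).trans (le_max_left _ _)).trans hAG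
  have hAG1 : Real.exp 8 ≤ C * Q * Q' := ((le_max_right _ _).trans (le_max_left _ _)).trans hAG
  have hG1 : 1 ≤ C * Q * Q' := hA₀1.trans hAG0
  have hG0 : 0 < C * Q * Q' := by linarith
  have hPF : ∀ a b : ℝ, ∃ C' A' : ℝ, ∀ s : ℂ, a ≤ s.re → s.re ≤ b → ‖L f s‖ ≤ C' * (1 + |s.im|) ^ A' := by
    obtain ⟨CM, hCM0, hCM⟩ := hL N' 1 one_pos
    obtain ⟨F, hF1, hF2, hF3, -, -⟩ := hCM K (u f) w (qs f) (μ f) 0 (by norm_num) (hT.rs f)
      (h.rep f).summable hT.rep.summable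
    have hFL : L f = F := by
      refine Pool.Agent.N846.ZD.entire_eq (hT.diff f) hF1 fun s hs => ?_
      rw [hT.eq f s hs, hF2 s hs, pow_zero, one_mul]
    rw [hFL]
    exact hF3
  have hlog8 : 8 ≤ Real.log (C * Q * Q') := (Real.le_log_iff_exp_le hG0).2 hAG1
  have hcrude : ∀ x : ℝ, -1 ≤ x → x ≤ 5 / 4 → ∀ v : ℝ, ‖L f ((x : ℂ) + (t + v : ℝ) * I)‖ ≤
      Real.exp (4 * Real.log (C * Q * Q')) * (1 + |v|) ^ (4 * (N' : ℝ)) := by
    intro x hx1 hx2 v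
    have h3 := hA₀ ι S α u q κ S' α' w q' κ' qs μ L h hT f t C Q Q' hC hQ hcQ' hcC hcQ hAG0
      ((x : ℂ) + (t + v : ℝ) * I) (by simpa using hx1) (by simpa using hx2)
    have him : ((x : ℂ) + (t + v : ℝ) * I).im - t = v := by simp
    rw [him] at h3
    exact h3
  have h5 := hC₂ (L f) t H₁ H₂ (Real.exp (4 * Real.log (C * Q * Q'))) (Real.log (C * Q * Q')) (hT.diff f) hPF hH1 hH2
    (Real.exp_pos _).le (by linarith) (by
      rw [← Real.exp_add]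
      refine Real.exp_le_one_iff.2 ?_
      nlinarith) hb1 hb2 (hcrude _ (by norm_num) (by norm_num)) (hcrude _ (by linarith) (by linarith)) s hs1 hs2 hs3
  refine h5.trans (mul_le_mul_of_nonneg_right (le_max_right _ _) ?_)
  positivity

/-- exceptional values between the critical line and the half plane -/
theorem mid_set (hPow : S_POW) (hMo : S_MOLL) (hMb : S_MB) (hConv : S_CONV) (hBl : S_BLOCK) (hL : S_LEFT)
    (hDi : S_DIAG) (hLvd : S_LVD) (hDet : S_DET) (hPl : S_PL) (hCv : S_CVX) (hTc : S_TC)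
    (K : Type) [Field K] [NumberField K] (n N n' N' N'' : ℕ) (hn : 1 ≤ n) {σ ε : ℝ} (hσ : 1 / 2 < σ)
    (hσ1 : σ ≤ 1) (hε : 0 < ε) : ∃ A : ℝ, 1 ≤ A ∧
    ∀ (ι : Type) (S : ι → Finset (HeightOneSpectrum (𝓞 K)))
      (α : ι → HeightOneSpectrum (𝓞 K) → Fin n → ℂ) (u : ι → VX K → ℂ) (q : ι → ι → ℝ) (κ : ι → ι → Fin N → ℂ)
      (S' : Finset (HeightOneSpectrum (𝓞 K))) (α' : HeightOneSpectrum (𝓞 K) → Fin n' → ℂ) (w : VX K → ℂ) (q' : ℝ)
      (κ' : Fin N'' → ℂ) (qs : ι → ℝ) (μ : ι → Fin N' → ℂ) (L : ι → ℂ → ℂ),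
      GLFamily n N S α u q κ → Twists n' N' N'' u S' α' w q' κ' qs μ L →
      ∀ (T : Set ι) (s : ι → ℂ) (C Q Q' : ℝ), 1 ≤ C → 1 ≤ Q → 2 * Real.log Q ≤ Real.log C →
        q' * ∏ j, (1 + ‖κ' j‖) ≤ Q' → A ≤ C * Q * Q' → (∀ f ∈ T, ∏ v ∈ S f, Nv v ≤ C * Q * Q') →
        (∀ f ∈ T, 1 / 2 ≤ (s f).re ∧ (s f).re ≤ σ ∧
          (C * Q * Q') ^ ε * C ^ ((σ - (s f).re) / 2) < ‖L f (s f)‖) →
        (∀ f ∈ T, qs f * ∏ j, (1 + ‖μ f j + (s f).im * I‖) ≤ C) →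
        (∀ f ∈ T, ∀ g ∈ T, q f g * ∏ j, (1 + ‖κ f g j + ((s f).im - (s g).im) * I‖) ≤ Q) →
        T.Finite ∧ (T.ncard : ℝ) ≤ (C * Q * Q') ^ ε * bd σ C Q := by
  obtain ⟨e, he⟩ : ∃ e : ℝ, e = min 1 (ε / 4) / 4 := ⟨_, rfl⟩
  have he0 : 0 < e := by rw [he]; positivity
  have he1 : 4 * e ≤ 1 := by
    rw [he]
    linarith [min_le_left 1 (ε / 4)]
  have he4 : 16 * e ≤ ε := by
    rw [he]
    linarith [min_le_right 1 (ε / 4)]
  have hσ12 : 0 < σ - 1 / 2 := by linarith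
  obtain ⟨v₀, hv₀⟩ : ∃ v₀ : ℝ, v₀ = (σ - 1 / 2) / 2 := ⟨_, rfl⟩
  have hv₀0 : 0 ≤ v₀ := by rw [hv₀]; positivity
  have hv₀1 : v₀ ≤ 1 := by
    rw [hv₀]
    linarith
  have hlev : 1 / 2 - 2 * v₀ = 1 - σ := by rw [hv₀]; ring
  obtain ⟨A₀, hA₀1, hA₀⟩ := val_set hPow hMo hMb hConv hBl hL hDi hLvd hDet hPl hCv hTc K n N n' N' N'' hn hσ hσ1
    he0
  obtain ⟨A₁, hA₁1, hA₁⟩ := lv_set hPow hConv hBl hL hDi hLvd hDet hPl K n N n' N' N'' hn he0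
  obtain ⟨A₂, hA₂1, hA₂⟩ := mid hL hDi hCv K n N n' N' N'' hσ hσ1
  obtain ⟨G₀, hG₀1, hG₀⟩ := logpow (N * 2 + N) N' (e := e) he0
  have hA₂0 : 0 < A₂ := by linarith
  refine ⟨max (max (max A₀ A₁) (max A₂ G₀)) (max (A₂ ^ (1 / e)) (2 ^ (1 / e))),
    hA₀1.trans (((le_max_left _ _).trans (le_max_left _ _)).trans (le_max_left _ _)), ?_⟩
  intro ι S α u q κ S' α' w q' κ' qs μ L h hT T s C Q Q' hC hQ hjC hcQ' hAG hram hbad hcC hcQ
  have hAG0 : A₀ ≤ C * Q * Q' := (((le_max_left _ _).trans (le_max_left _ _)).trans (le_max_left _ _)).trans hAG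
  have hAG1 : A₁ ≤ C * Q * Q' := (((le_max_right _ _).trans (le_max_left _ _)).trans (le_max_left _ _)).trans hAG
  have hAG2 : A₂ ≤ C * Q * Q' := (((le_max_left _ _).trans (le_max_right _ _)).trans (le_max_left _ _)).trans hAG
  have hAG3 : G₀ ≤ C * Q * Q' := (((le_max_right _ _).trans (le_max_right _ _)).trans (le_max_left _ _)).trans hAG
  have hAG4 : A₂ ^ (1 / e) ≤ C * Q * Q' := ((le_max_left _ _).trans (le_max_right _ _)).trans hAG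
  have hAG5 : (2 : ℝ) ^ (1 / e) ≤ C * Q * Q' := ((le_max_right _ _).trans (le_max_right _ _)).trans hAG
  have hC0 : 0 < C := by linarith
  have hQ0 : 0 < Q := by linarith
  have hQ'1 : 1 ≤ Q' := by
    have h2 := one_le_cond (κ := κ') hT.self.one_le 0
    simp only [add_zero] at h2
    linarith
  have hQ'0 : 0 < Q' := by linarith
  have hG1 : 1 ≤ C * Q * Q' := hA₁1.trans hAG1
  have hG0 : 0 < C * Q * Q' := by linarith
  have hlG := Real.log_nonneg hG1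
  have hA₂e : A₂ ≤ (C * Q * Q') ^ e := small_pow hA₂0 he0 hAG4
  have h2e : 2 ≤ (C * Q * Q') ^ e := small_pow (by norm_num) he0 hAG5
  obtain ⟨G, hG⟩ : ∃ G : ℝ, G = C * Q * Q' := ⟨_, rfl⟩
  -- a large value on one of the two lines
  have hch : ∀ f, ∃ v : ℝ, f ∈ T → |v| ≤ Real.log G ∧ (G ^ (8 * e) < ‖L f ((σ : ℂ) + ((s f).im + v : ℝ) * I)‖ ∨
      G ^ (8 * e) * C ^ v₀ < ‖L f (((1 / 2 : ℝ) : ℂ) + ((s f).im + v : ℝ) * I)‖) := by
    intro f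
    by_cases hf : f ∈ T
    · by_contra hne
      push Not at hne
      obtain ⟨hr1, hr2, hb⟩ := hbad f hf
      have hcQf : q f f * ∏ j, (1 + ‖κ f f j‖) ≤ Q := by
        have := hcQ f hf f hf
        simpa only [sub_self, zero_mul, add_zero] using this
      have hQv : 1 ≤ C ^ v₀ := Real.one_le_rpow hC hv₀0
      have hGe : 1 ≤ G ^ (8 * e) := by rw [hG]; exact Real.one_le_rpow hG1 (by positivity)
      have h3 := hA₂ ι S α u q κ S' α' w q' κ' qs μ L h hT f (s f).im C Q Q' (G ^ (8 * e) * C ^ v₀) (G ^ (8 * e)) hC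
        hQ hcQ' (hcC f hf) hcQf hAG2 (by nlinarith) hGe (fun v hv => ((hne v).2 (by rw [hG]; exact hv)).2)
        (fun v hv => ((hne v).2 (by rw [hG]; exact hv)).1) (s f) hr1 hr2 rfl
      obtain ⟨θ, hθ⟩ : ∃ θ : ℝ, θ = (σ - (s f).re) / (σ - 1 / 2) := ⟨_, rfl⟩
      have hθ' : ((s f).re - 1 / 2) / (σ - 1 / 2) = 1 - θ := by
        rw [hθ, eq_sub_iff_add_eq, ← add_div, div_eq_one_iff_eq hσ12.ne']
        ring
      have hG00 : 0 < G := by rw [hG]; exact hG0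
      have hvθ : v₀ * θ = (σ - (s f).re) / 2 := by
        rw [hv₀, hθ, div_mul_div_comm, mul_comm (σ - 1 / 2) (σ - (s f).re), mul_div_mul_right _ _ hσ12.ne']
      rw [hθ', ← hθ, Real.mul_rpow (by positivity) (by positivity), ← Real.rpow_mul hC0.le, hvθ] at h3
      have h4 : (G ^ (8 * e)) ^ θ * C ^ ((σ - (s f).re) / 2) * (G ^ (8 * e)) ^ (1 - θ) =
          G ^ (8 * e) * C ^ ((σ - (s f).re) / 2) := by
        rw [mul_right_comm, ← Real.rpow_add (by positivity), add_sub_cancel, Real.rpow_one]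
      rw [h4] at h3
      rw [← hG] at hb hA₂e
      have h6 : A₂ * (G ^ (8 * e) * C ^ ((σ - (s f).re) / 2)) ≤
          G ^ ε * C ^ ((σ - (s f).re) / 2) := by
        rw [← mul_assoc]
        refine mul_le_mul_of_nonneg_right ?_ (by positivity)
        calc A₂ * G ^ (8 * e) ≤ G ^ e * G ^ (8 * e) := mul_le_mul_of_nonneg_right hA₂e (by positivity)
          _ = G ^ (e + 8 * e) := (Real.rpow_add hG00 _ _).symm
          _ ≤ G ^ ε := Real.rpow_le_rpow_of_exponent_le (by rw [hG]; exact hG1) (by linarith)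
      linarith
    · exact ⟨0, fun h' => absurd h' hf⟩
  choose v hv using hch
  obtain ⟨hc1, hc2⟩ := shift_fam h hT (T := T) (t := fun f => (s f).im) (t' := fun f => (s f).im + v f) (C := C)
    (Q := Q) (R := Real.log G) (by rw [hG]; exact hlG) (fun f hf => by
      rw [add_sub_cancel_left]
      exact (hv f hf).1) hcC hcQ
  have hlG' : 0 ≤ Real.log G := by rw [hG]; exact hlG
  obtain ⟨a, ha⟩ : ∃ a : ℝ, a = (1 + Real.log G) ^ N' * (1 + 2 * Real.log G) ^ (N * 2) := ⟨_, rfl⟩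
  obtain ⟨b, hb⟩ : ∃ b : ℝ, b = (1 + 2 * Real.log G) ^ N := ⟨_, rfl⟩
  have hb1 : 1 ≤ b := by rw [hb]; exact one_le_pow₀ (by linarith)
  have ha2 : 1 ≤ (1 + Real.log G) ^ N' := one_le_pow₀ (by linarith)
  have ha3 : 1 ≤ (1 + 2 * Real.log G) ^ (N * 2) := one_le_pow₀ (by linarith)
  have haN' : (1 + Real.log G) ^ N' ≤ a := by rw [ha]; exact le_mul_of_one_le_right (by positivity) ha3
  have hab2 : b ^ 2 ≤ a := by
    rw [ha, hb, ← pow_mul]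
    exact le_mul_of_one_le_left (by positivity) ha2
  have ha1 : 1 ≤ a := ha2.trans haN'
  have ha0 : 0 < a := by linarith
  have hb0 : 0 < b := by linarith
  have hab : a * b ≤ (C * Q * Q') ^ e := by
    rw [← hG, ha, hb, mul_assoc, ← pow_add]
    exact hG₀ G (by rw [hG]; exact hAG3)
  rw [← hb] at hc2
  have hCC : C ≤ a * C := le_mul_of_one_le_left hC0.le ha1
  have hQQ : Q ≤ b * Q := le_mul_of_one_le_left hQ0.le hb1
  have hGG : C * Q * Q' ≤ a * C * (b * Q) * Q' :=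
    mul_le_mul_of_nonneg_right (mul_le_mul hCC hQQ hQ0.le (by positivity)) hQ'0.le
  have hG₁0 : 0 < a * C * (b * Q) * Q' := by positivity
  have hlog : 2 * Real.log (b * Q) ≤ Real.log (a * C) := by
    have e1 : Real.log (a * C) = Real.log a + Real.log C := Real.log_mul ha0.ne' hC0.ne'
    have e2 : Real.log (b * Q) = Real.log b + Real.log Q := Real.log_mul hb0.ne' hQ0.ne'
    have e3 : 2 * Real.log b ≤ Real.log a := by
      have h3 := Real.log_le_log (by positivity) hab2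
      rw [Real.log_pow] at h3
      exact_mod_cast h3
    rw [e1, e2]
    linarith
  have hG₁2 : a * C * (b * Q) * Q' ≤ G ^ (2 : ℝ) := by
    calc a * C * (b * Q) * Q' = (a * b) * (C * Q * Q') := by ring
      _ ≤ (C * Q * Q') ^ e * (C * Q * Q') := mul_le_mul_of_nonneg_right hab hG0.le
      _ ≤ (C * Q * Q') ^ (1 : ℝ) * (C * Q * Q') := by
          refine mul_le_mul_of_nonneg_right ?_ hG0.le
          exact Real.rpow_le_rpow_of_exponent_le hG1 (by linarith)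
      _ = G ^ (2 : ℝ) := by
          rw [Real.rpow_one, hG, Real.rpow_two]
          ring
  have hG₁e : (a * C * (b * Q) * Q') ^ e ≤ G ^ (2 * e) := by
    calc _ ≤ (G ^ (2 : ℝ)) ^ e := Real.rpow_le_rpow hG₁0.le hG₁2 he0.le
      _ = G ^ (2 * e) := by rw [← Real.rpow_mul (by rw [hG]; exact hG0.le)]
  have hG1' : 1 ≤ G := by rw [hG]; exact hG1
  have hG0' : 0 < G := by linarith
  have hbG : a ^ v₀ ≤ G ^ e := by
    calc a ^ v₀ ≤ a ^ (1 : ℝ) := Real.rpow_le_rpow_of_exponent_le ha1 hv₀1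
      _ = a := Real.rpow_one _
      _ ≤ a * b := le_mul_of_one_le_right ha0.le hb1
      _ ≤ _ := by rw [hG]; exact hab
  obtain ⟨T₁, hT₁⟩ : ∃ T₁ : Set ι, T₁ = {f ∈ T | G ^ (8 * e) < ‖L f ((σ : ℂ) + ((s f).im + v f : ℝ) * I)‖} :=
    ⟨_, rfl⟩
  obtain ⟨T₂, hT₂⟩ : ∃ T₂ : Set ι, T₂ = {f ∈ T | G ^ (8 * e) * C ^ v₀ <
      ‖L f (((1 / 2 : ℝ) : ℂ) + ((s f).im + v f : ℝ) * I)‖} := ⟨_, rfl⟩
  have hT₁T : ∀ f ∈ T₁, f ∈ T := fun f hf => by rw [hT₁] at hf; exact hf.1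
  have hT₂T : ∀ f ∈ T₂, f ∈ T := fun f hf => by rw [hT₂] at hf; exact hf.1
  obtain ⟨f1, c1⟩ := hA₀ ι S α u q κ S' α' w q' κ' qs μ L h hT T₁
    (fun f => (σ : ℂ) + ((s f).im + v f : ℝ) * I) (a * C) (b * Q) Q' (hC.trans hCC) (hQ.trans hQQ) hlog hcQ'
    (hAG0.trans hGG) (fun f hf => (hram f (hT₁T f hf)).trans hGG) (fun f hf => by
      refine ⟨by simp, fun hh => ?_⟩
      have h3 : G ^ (8 * e) < ‖L f ((σ : ℂ) + ((s f).im + v f : ℝ) * I)‖ := by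
        rw [hT₁] at hf
        exact hf.2
      have h4 := hh.2.trans hG₁e
      have h5 : G ^ (2 * e) ≤ G ^ (8 * e) := Real.rpow_le_rpow_of_exponent_le hG1' (by linarith)
      exact absurd (h3.trans_le (h4.trans h5)) (lt_irrefl _)) (fun f hf => by
      have h3 := (hc1 f (hT₁T f hf)).trans (mul_le_mul_of_nonneg_right haN' hC0.le)
      simpa using h3) (fun f hf g hg => by
      have h3 := hc2 f (hT₁T f hf) g (hT₁T g hg)
      simpa using h3)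
  obtain ⟨f2, c2⟩ := hA₁ ι S α u q κ S' α' w q' κ' qs μ L h hT T₂
    (fun f => (s f).im + v f) v₀ (a * C) (b * Q) Q' hv₀0 (hC.trans hCC) (hQ.trans hQQ) hlog hcQ'
    (hAG1.trans hGG) (fun f hf => (hram f (hT₂T f hf)).trans hGG) (fun f hf => by
      have h3 : G ^ (8 * e) * C ^ v₀ < ‖L f (((1 / 2 : ℝ) : ℂ) + ((s f).im + v f : ℝ) * I)‖ := by
        rw [hT₂] at hf
        exact hf.2
      have h5 : (a * C * (b * Q) * Q') ^ e * (a * C) ^ v₀ ≤ G ^ (8 * e) * C ^ v₀ := by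
        rw [Real.mul_rpow ha0.le hC0.le, ← mul_assoc]
        refine mul_le_mul_of_nonneg_right ?_ (by positivity)
        calc _ ≤ G ^ (2 * e) * G ^ e := mul_le_mul hG₁e hbG (by positivity) (by positivity)
          _ = G ^ (2 * e + e) := (Real.rpow_add hG0' _ _).symm
          _ ≤ _ := Real.rpow_le_rpow_of_exponent_le hG1' (by linarith)
      refine (h5.trans h3.le).trans (le_of_eq ?_)
      congr 2
      push_cast
      ring) (fun f hf => by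
      have h3 := (hc1 f (hT₂T f hf)).trans (mul_le_mul_of_nonneg_right haN' hC0.le)
      simpa using h3) (fun f hf g hg => by
      have h3 := hc2 f (hT₂T f hf) g (hT₂T g hg)
      simpa using h3)
  rw [hlev] at c2
  have hbd : (a * C) ^ (1 - σ) ≤ bd σ (a * C) (b * Q) := le_max_left _ _
  have c3 : (T₂.ncard : ℝ) ≤ (a * C * (b * Q) * Q') ^ e * bd σ (a * C) (b * Q) :=
    c2.trans (mul_le_mul_of_nonneg_left hbd (by positivity))
  have henl := enlarge hσ hσ1 he0 hC hQ hQ'1 ha1 hb1 le_rfl hab (by linarith)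
  have hbd0 : 0 < bd σ C Q := bd_pos hC0
  have hsub : T ⊆ T₁ ∪ T₂ := by
    intro f hf
    rw [hT₁, hT₂]
    rcases (hv f hf).2 with h3 | h3
    · exact Or.inl ⟨hf, h3⟩
    · exact Or.inr ⟨hf, h3⟩
  refine ⟨(f1.union f2).subset hsub, ?_⟩
  have h4 := (Set.ncard_le_ncard hsub (f1.union f2)).trans (Set.ncard_union_le _ _)
  have h5 : (T.ncard : ℝ) ≤ (C * Q * Q') ^ (3 * e) * bd σ C Q + (C * Q * Q') ^ (3 * e) * bd σ C Q := by
    refine le_trans ?_ (add_le_add (c1.trans henl) (c3.trans henl))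
    exact_mod_cast h4
  refine h5.trans ?_
  calc _ = 2 * ((C * Q * Q') ^ (3 * e) * bd σ C Q) := by ring
    _ ≤ (C * Q * Q') ^ e * ((C * Q * Q') ^ (3 * e) * bd σ C Q) :=
        mul_le_mul_of_nonneg_right h2e (by positivity)
    _ = (C * Q * Q') ^ (e + 3 * e) * bd σ C Q := by
        rw [← mul_assoc, ← Real.rpow_add hG0]
    _ ≤ _ := by
        refine mul_le_mul_of_nonneg_right ?_ (by positivity)
        exact Real.rpow_le_rpow_of_exponent_le hG1 (by linarith)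

/-- both kinds of exceptional values -/
theorem both_set (hPow : S_POW) (hMo : S_MOLL) (hMb : S_MB) (hConv : S_CONV) (hBl : S_BLOCK) (hL : S_LEFT)
    (hDi : S_DIAG) (hLvd : S_LVD) (hDet : S_DET) (hPl : S_PL) (hCv : S_CVX) (hTc : S_TC)
    (K : Type) [Field K] [NumberField K] (n N n' N' N'' : ℕ) (hn : 1 ≤ n) {σ ε : ℝ} (hσ : 1 / 2 < σ)
    (hσ1 : σ ≤ 1) (hε : 0 < ε) : ∃ A : ℝ, 1 ≤ A ∧
    ∀ (ι : Type) (S : ι → Finset (HeightOneSpectrum (𝓞 K)))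
      (α : ι → HeightOneSpectrum (𝓞 K) → Fin n → ℂ) (u : ι → VX K → ℂ) (q : ι → ι → ℝ) (κ : ι → ι → Fin N → ℂ)
      (S' : Finset (HeightOneSpectrum (𝓞 K))) (α' : HeightOneSpectrum (𝓞 K) → Fin n' → ℂ) (w : VX K → ℂ) (q' : ℝ)
      (κ' : Fin N'' → ℂ) (qs : ι → ℝ) (μ : ι → Fin N' → ℂ) (L : ι → ℂ → ℂ),
      GLFamily n N S α u q κ → Twists n' N' N'' u S' α' w q' κ' qs μ L →
      ∀ (T : Set ι) (s : ι → ℂ) (C Q Q' : ℝ), 1 ≤ C → 1 ≤ Q → Q ^ 2 ≤ C →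
        q' * ∏ j, (1 + ‖κ' j‖) ≤ Q' → A ≤ C * Q * Q' → (∀ f ∈ T, ∏ v ∈ S f, Nv v ≤ C * Q * Q') →
        (∀ f ∈ T, qs f * ∏ j, (1 + ‖μ f j + (s f).im * I‖) ≤ C) →
        (∀ f ∈ T, ∀ g ∈ T, q f g * ∏ j, (1 + ‖κ f g j + ((s f).im - (s g).im) * I‖) ≤ Q) →
        (∀ f ∈ T,
          (σ ≤ (s f).re ∧ ¬((C * Q * Q') ^ (-ε) ≤ ‖L f (s f)‖ ∧ ‖L f (s f)‖ ≤ (C * Q * Q') ^ ε)) ∨
          (1 / 2 ≤ (s f).re ∧ (s f).re ≤ σ ∧
            (C * Q * Q') ^ ε * C ^ ((σ - (s f).re) / 2) < ‖L f (s f)‖)) →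
        T.Finite ∧ (T.ncard : ℝ) ≤ (C * Q * Q') ^ ε * bd σ C Q := by
  obtain ⟨A₁, hA₁1, hA₁⟩ := val_set hPow hMo hMb hConv hBl hL hDi hLvd hDet hPl hCv hTc K n N n' N' N'' hn hσ hσ1
    (half_pos hε)
  obtain ⟨A₂, hA₂1, hA₂⟩ := mid_set hPow hMo hMb hConv hBl hL hDi hLvd hDet hPl hCv hTc K n N n' N' N'' hn hσ hσ1
    (half_pos hε)
  refine ⟨max (max A₁ A₂) ((2 : ℝ) ^ (1 / (ε / 2))), hA₁1.trans ((le_max_left _ _).trans (le_max_left _ _)), ?_⟩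
  intro ι S α u q κ S' α' w q' κ' qs μ L h hT T s C Q Q' hC hQ hjC hcQ' hAG hram hcC hcQ hbad
  have hAG1 : A₁ ≤ C * Q * Q' := ((le_max_left _ _).trans (le_max_left _ _)).trans hAG
  have hAG2 : A₂ ≤ C * Q * Q' := ((le_max_right _ _).trans (le_max_left _ _)).trans hAG
  have hAG3 : (2 : ℝ) ^ (1 / (ε / 2)) ≤ C * Q * Q' := (le_max_right _ _).trans hAG
  have hC0 : 0 < C := by linarith
  have hQ0 : 0 < Q := by linarith
  have hG1 : 1 ≤ C * Q * Q' := hA₁1.trans hAG1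
  have hG0 : 0 < C * Q * Q' := by linarith
  have hjC' : 2 * Real.log Q ≤ Real.log C := by
    have h1 := Real.log_le_log (by positivity) hjC
    rw [Real.log_pow] at h1
    exact_mod_cast h1
  have hbd0 : 0 < bd σ C Q := bd_pos hC0
  have h2 : 2 ≤ (C * Q * Q') ^ (ε / 2) := small_pow (by norm_num) (half_pos hε) hAG3
  have hle : (C * Q * Q') ^ (ε / 2) ≤ (C * Q * Q') ^ ε := Real.rpow_le_rpow_of_exponent_le hG1 (by linarith)
  have hge : (C * Q * Q') ^ (-ε) ≤ (C * Q * Q') ^ (-(ε / 2)) := Real.rpow_le_rpow_of_exponent_le hG1 (by linarith)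
  obtain ⟨T₁, hT₁⟩ : ∃ T₁ : Set ι, T₁ = {f ∈ T | σ ≤ (s f).re ∧
      ¬((C * Q * Q') ^ (-ε) ≤ ‖L f (s f)‖ ∧ ‖L f (s f)‖ ≤ (C * Q * Q') ^ ε)} := ⟨_, rfl⟩
  obtain ⟨T₂, hT₂⟩ : ∃ T₂ : Set ι, T₂ = {f ∈ T | 1 / 2 ≤ (s f).re ∧ (s f).re ≤ σ ∧
      (C * Q * Q') ^ ε * C ^ ((σ - (s f).re) / 2) < ‖L f (s f)‖} := ⟨_, rfl⟩
  have hT₁T : ∀ f ∈ T₁, f ∈ T := fun f hf => by rw [hT₁] at hf; exact hf.1
  have hT₂T : ∀ f ∈ T₂, f ∈ T := fun f hf => by rw [hT₂] at hf; exact hf.1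
  obtain ⟨f1, c1⟩ := hA₁ ι S α u q κ S' α' w q' κ' qs μ L h hT T₁ s C Q Q' hC hQ hjC' hcQ' hAG1
    (fun f hf => hram f (hT₁T f hf)) (fun f hf => by
      rw [hT₁] at hf
      exact ⟨hf.2.1, fun hh => hf.2.2 ⟨hge.trans hh.1, hh.2.trans hle⟩⟩) (fun f hf => hcC f (hT₁T f hf))
    (fun f hf g hg => hcQ f (hT₁T f hf) g (hT₁T g hg))
  obtain ⟨f2, c2⟩ := hA₂ ι S α u q κ S' α' w q' κ' qs μ L h hT T₂ s C Q Q' hC hQ hjC' hcQ' hAG2
    (fun f hf => hram f (hT₂T f hf)) (fun f hf => by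
      rw [hT₂] at hf
      refine ⟨hf.2.1, hf.2.2.1, lt_of_le_of_lt ?_ hf.2.2.2⟩
      exact mul_le_mul_of_nonneg_right hle (by positivity)) (fun f hf => hcC f (hT₂T f hf))
    (fun f hf g hg => hcQ f (hT₂T f hf) g (hT₂T g hg))
  have hsub : T ⊆ T₁ ∪ T₂ := by
    intro f hf
    rw [hT₁, hT₂]
    rcases hbad f hf with h3 | h3
    · exact Or.inl ⟨hf, h3⟩
    · exact Or.inr ⟨hf, h3⟩
  refine ⟨(f1.union f2).subset hsub, ?_⟩
  have h4 := (Set.ncard_le_ncard hsub (f1.union f2)).trans (Set.ncard_union_le _ _)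
  have h5 : (T.ncard : ℝ) ≤ (C * Q * Q') ^ (ε / 2) * bd σ C Q + (C * Q * Q') ^ (ε / 2) * bd σ C Q := by
    refine le_trans ?_ (add_le_add c1 c2)
    exact_mod_cast h4
  refine h5.trans ?_
  calc _ = 2 * ((C * Q * Q') ^ (ε / 2) * bd σ C Q) := by ring
    _ ≤ (C * Q * Q') ^ (ε / 2) * ((C * Q * Q') ^ (ε / 2) * bd σ C Q) :=
        mul_le_mul_of_nonneg_right h2 (by positivity)
    _ = ((C * Q * Q') ^ (ε / 2) * (C * Q * Q') ^ (ε / 2)) * bd σ C Q := by ring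
    _ = _ := by
        rw [← Real.rpow_add hG0, add_halves]

end Pool.Agent.T3h90.TW
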