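import Pool.Agent.N846.ZD.Lind

/-! Shifts of the ordinates. -/

set_option autoImplicit false

namespace Pool.Agent.T3h90.TW

open Filter Topology Complex MeasureTheory Set NumberField IsDedekindDomain
open Pool.Agent.N846.DU (VX LV Nv logRS RS GLFamily Rep LV_nonneg one_le_cond shift_cond shift_cond' S_LEFT S_DIAG)
open Pool.Agent.N846.LM (Twists)

/-- the conductors of a family after a shift -/
theorem shift_fam {K : Type} [Field K] [NumberField K] {ι : Type} {n N n' N' N'' : ℕ}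
    {S : ι → Finset (HeightOneSpectrum (𝓞 K))}
    {α : ι → HeightOneSpectrum (𝓞 K) → Fin n → ℂ} {u : ι → VX K → ℂ} {q : ι → ι → ℝ} {κ : ι → ι → Fin N → ℂ}
    {S' : Finset (HeightOneSpectrum (𝓞 K))} {α' : HeightOneSpectrum (𝓞 K) → Fin n' → ℂ} {w : VX K → ℂ} {q' : ℝ}
    {κ' : Fin N'' → ℂ} {qs : ι → ℝ} {μ : ι → Fin N' → ℂ} {L : ι → ℂ → ℂ}
    (h : GLFamily n N S α u q κ) (hT : Twists n' N' N'' u S' α' w q' κ' qs μ L) {T : Set ι} {t t' : ι → ℝ}
    {C Q R : ℝ} (hR : 0 ≤ R) (hv : ∀ f ∈ T, |t' f - t f| ≤ R)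
    (hcC : ∀ f ∈ T, qs f * ∏ j, (1 + ‖μ f j + t f * I‖) ≤ C)
    (hcQ : ∀ f ∈ T, ∀ g ∈ T, q f g * ∏ j, (1 + ‖κ f g j + (t f - t g) * I‖) ≤ Q) :
    (∀ f ∈ T, qs f * ∏ j, (1 + ‖μ f j + t' f * I‖) ≤ (1 + R) ^ N' * C) ∧
    (∀ f ∈ T, ∀ g ∈ T, q f g * ∏ j, (1 + ‖κ f g j + (t' f - t' g) * I‖) ≤ (1 + 2 * R) ^ N * Q) := by
  have hq1 : ∀ f g, 1 ≤ q f g := by
    intro f g
    by_cases hfg : f = g
    · rw [hfg]
      exact (h.self g).one_le
    · exact (h.pair f g hfg).one_le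
  constructor
  · intro f hf
    have h3 := shift_cond' (κ := μ f) (hT.rs f).one_le (z := (t f : ℂ) * I)
      (w := ((t' f - t f : ℝ) : ℂ) * I) (c := R) (by
        rw [norm_mul, Complex.norm_I, mul_one, Complex.norm_real, Real.norm_eq_abs]
        exact hv f hf)
    refine le_trans (le_of_eq ?_) (h3.trans (mul_le_mul_of_nonneg_left (hcC f hf) (by positivity)))
    congr 1
    refine Finset.prod_congr rfl fun j _ => ?_
    congr 2
    push_cast
    ring
  · intro f hf g hg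
    have h3 := shift_cond' (κ := κ f g) (hq1 f g) (z := ((t f : ℂ) - t g) * I)
      (w := ((t' f - t f - (t' g - t g) : ℝ) : ℂ) * I) (c := 2 * R) (by
        rw [norm_mul, Complex.norm_I, mul_one, Complex.norm_real, Real.norm_eq_abs]
        refine (abs_sub _ _).trans ?_
        linarith [hv f hf, hv g hg])
    refine le_trans (le_of_eq ?_) (h3.trans (mul_le_mul_of_nonneg_left (hcQ f hf g hg) (by positivity)))
    congr 1
    refine Finset.prod_congr rfl fun j _ => ?_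
    congr 2
    push_cast
    ring

/-- a constant is at most a small power of a large number -/
theorem small_pow {A e : ℝ} (hA : 0 < A) (he : 0 < e) {G : ℝ} (hG : A ^ (1 / e) ≤ G) : A ≤ G ^ e := by
  have h3 : (A ^ (1 / e)) ^ e ≤ G ^ e := Real.rpow_le_rpow (by positivity) hG he.le
  rw [← Real.rpow_mul hA.le, one_div_mul_cancel he.ne', Real.rpow_one] at h3
  exact h3

end Pool.Agent.T3h90.TW
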