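import Pool.Agent.T3h90.TW.Mid

/-! Universal families. -/

set_option autoImplicit false

namespace Pool.Agent.T3h90.TW

open Filter Topology Complex MeasureTheory Set NumberField IsDedekindDomain
open Pool.Agent.N846.DU (VX LV Nv logRS RS GLFamily Rep LV_nonneg one_le_cond shift_cond shift_cond' S_LEFT S_DIAG)
open Pool.Agent.N846.LM (Twists cond_shift)
open Pool.Agent.N846.ZD (S_POW S_MOLL S_MB S_CONV S_BLOCK S_CVX S_TC logpow)
open Pool.Agent.N846.LV (S_LVD)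
open Pool.Agent.N846.HU (S_DET S_PL twists_sub)

/-- the exponent of the exceptional set in a universal family -/
noncomputable def eu (n m : ℕ) (σ : ℝ) : ℝ := max (m * (1 - σ)) (2 * n * az σ)

/-- the numerical range -/
theorem range_m {n m : ℕ} (hn : 1 ≤ n) {σ : ℝ} (hσ : 1 / 2 < σ) (h1 : (m : ℝ) * (1 - σ) < n + 1)
    (h2 : (6 * (n : ℝ) - 2) * (1 - σ) < n + 1) : eu n m σ < n + 1 := by
  have hn1 : (1 : ℝ) ≤ n := by exact_mod_cast hn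
  refine max_lt h1 ?_
  have h3 : az σ ≤ 4 * (1 - σ) / (3 - 2 * σ) := min_le_left _ _
  by_cases hσ1 : σ ≤ 1
  · have hd : 0 < 3 - 2 * σ := by linarith
    refine lt_of_le_of_lt (mul_le_mul_of_nonneg_left h3 (by positivity)) ?_
    rw [← mul_div_assoc, div_lt_iff₀ hd]
    linarith
  · push Not at hσ1
    have h4 : az σ ≤ 2 * (1 - σ) / (2 * σ - 1) := min_le_right _ _
    have h5 : 2 * (1 - σ) / (2 * σ - 1) ≤ 0 := div_nonpos_of_nonpos_of_nonneg (by linarith) (by linarith)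
    have h6 : 2 * (n : ℝ) * az σ ≤ 2 * n * 0 := mul_le_mul_of_nonneg_left (h4.trans h5) (by positivity)
    linarith

/-- powers of a conductor -/
theorem pow_cond {X a p b e : ℝ} (hX : 1 ≤ X) (ha : 1 ≤ a) (haX : a ≤ X ^ p) {Y : ℝ} (hY : Y = a * X ^ (b + p))
    (hp : 0 ≤ p) (he0 : 0 ≤ e) (he1 : e ≤ 1) : Y ^ e ≤ X ^ (b * e + 2 * p) := by
  have hX0 : 0 < X := by linarith
  rw [hY, Real.mul_rpow (by positivity) (by positivity), ← Real.rpow_mul hX0.le]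
  calc _ ≤ X ^ p * X ^ (b * e + p) := by
        refine mul_le_mul ?_ ?_ (by positivity) (by positivity)
        · calc a ^ e ≤ a ^ (1 : ℝ) := Real.rpow_le_rpow_of_exponent_le ha he1
            _ = a := Real.rpow_one _
            _ ≤ X ^ p := haX
        · refine Real.rpow_le_rpow_of_exponent_le hX ?_
          have h1 : p * e ≤ p := mul_le_of_le_one_right hp he1
          linarith
    _ = _ := by
        rw [← Real.rpow_add hX0]
        congr 1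
        ring

/-- universal families -/
theorem univ_set (hPow : S_POW) (hMo : S_MOLL) (hMb : S_MB) (hConv : S_CONV) (hBl : S_BLOCK) (hL : S_LEFT)
    (hDi : S_DIAG) (hLvd : S_LVD) (hDet : S_DET) (hPl : S_PL) (hCv : S_CVX) (hTc : S_TC)
    (K : Type) [Field K] [NumberField K] (n N n' N' N'' m : ℕ) (hn : 1 ≤ n) (hm : 4 * n ≤ m) {σ ε : ℝ}
    (hσ : 1 / 2 < σ) (hσ1 : σ ≤ 1) (hε : 0 < ε) (B Q' : ℝ) (hB : 1 ≤ B) (hQ' : 1 ≤ Q') : ∃ A c : ℝ, 1 ≤ A ∧ 0 < c ∧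
    ∀ (ι : Type) (S : ι → Finset (HeightOneSpectrum (𝓞 K)))
      (α : ι → HeightOneSpectrum (𝓞 K) → Fin n → ℂ) (u : ι → VX K → ℂ) (q : ι → ι → ℝ) (κ : ι → ι → Fin N → ℂ)
      (S' : Finset (HeightOneSpectrum (𝓞 K))) (α' : HeightOneSpectrum (𝓞 K) → Fin n' → ℂ) (w : VX K → ℂ) (q' : ℝ)
      (κ' : Fin N'' → ℂ) (qs : ι → ℝ) (μ : ι → Fin N' → ℂ) (L : ι → ℂ → ℂ) (C : ι → ℝ),
      GLFamily n N S α u q κ → Twists n' N' N'' u S' α' w q' κ' qs μ L → q' * ∏ j, (1 + ‖κ' j‖) ≤ Q' →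
      (∀ f, 1 ≤ C f) → (∀ f, qs f * ∏ j, (1 + ‖μ f j‖) ≤ B * C f ^ m) → (∀ f, ∏ v ∈ S f, Nv v ≤ C f) →
      (∀ f g, q f g * ∏ j, (1 + ‖κ f g j‖) ≤ B * (C f * C g) ^ n) →
      ∀ X : ℝ, A ≤ X → ∃ E : Set ι, E.Finite ∧
        (E.ncard : ℝ) ≤ X ^ (eu n m σ + ε) ∧
        ∀ f, C f ≤ X → f ∉ E → ∀ s : ℂ, |s.im| ≤ X ^ c →
          (σ ≤ s.re → X ^ (-ε) ≤ ‖L f s‖ ∧ ‖L f s‖ ≤ X ^ ε) ∧
          (1 / 2 ≤ s.re → s.re ≤ σ → ‖L f s‖ ≤ X ^ (m * (σ - s.re) / 2 + ε)) := by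
  have hn1 : (1 : ℝ) ≤ n := by exact_mod_cast hn
  have hN0 : (0 : ℝ) ≤ N := Nat.cast_nonneg N
  have hN'0 : (0 : ℝ) ≤ N' := Nat.cast_nonneg N'
  have hm0 : (0 : ℝ) ≤ m := Nat.cast_nonneg m
  obtain ⟨p, hp⟩ : ∃ p : ℝ, p = ε / 3 := ⟨_, rfl⟩
  have hp0 : 0 < p := by rw [hp]; positivity
  obtain ⟨c, hc⟩ : ∃ c : ℝ, c = p / (N' + 2 * N + 1) := ⟨_, rfl⟩
  have hc0 : 0 < c := by rw [hc]; positivity
  have hcp : c * (N' + 2 * N + 1) = p := by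
    rw [hc]
    field_simp
  have hcp1 : c * (N' + 2 * N) ≤ p := by linarith
  have hcp2 : c * N ≤ p := by
    have h1 : 0 ≤ c * (N' + N + 1) := by positivity
    linarith
  obtain ⟨g₀, hg₀⟩ : ∃ g₀ : ℝ, g₀ = 1 + m + 2 * n + 2 * p := ⟨_, rfl⟩
  have hg₀0 : 0 < g₀ := by rw [hg₀]; positivity
  obtain ⟨ε₁, hε₁⟩ : ∃ ε₁ : ℝ, ε₁ = p / g₀ := ⟨_, rfl⟩
  have hε₁0 : 0 < ε₁ := by rw [hε₁]; positivity
  have hgε : g₀ * ε₁ = p := by rw [hε₁]; field_simp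
  obtain ⟨A₀, hA₀1, hA₀⟩ := both_set hPow hMo hMb hConv hBl hL hDi hLvd hDet hPl hCv hTc K n N n' N' N'' hn
    hσ hσ1 hε₁0
  obtain ⟨b₁, hb₁⟩ : ∃ b₁ : ℝ, b₁ = 3 ^ (N' + 2 * N) * B ^ 2 := ⟨_, rfl⟩
  obtain ⟨b₂, hb₂⟩ : ∃ b₂ : ℝ, b₂ = 3 ^ N * B := ⟨_, rfl⟩
  have hB0 : 0 < B := by linarith
  have hQ'0 : 0 < Q' := by linarith
  have hb₁1 : 1 ≤ b₁ := by
    rw [hb₁]
    exact one_le_mul_of_one_le_of_one_le (one_le_pow₀ (by norm_num)) (one_le_pow₀ hB)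
  have hb₂1 : 1 ≤ b₂ := by
    rw [hb₂]
    exact one_le_mul_of_one_le_of_one_le (one_le_pow₀ (by norm_num)) hB
  obtain ⟨K₀, hK₀⟩ : ∃ K₀ : ℝ, K₀ = b₁ * b₂ * Q' := ⟨_, rfl⟩
  have hb₁0 : 0 < b₁ := by linarith
  have hb₂0 : 0 < b₂ := by linarith
  have hK₁ : b₁ ≤ K₀ := by
    rw [hK₀]
    exact (le_mul_of_one_le_right hb₁0.le hb₂1).trans (le_mul_of_one_le_right (by positivity) hQ')
  have hK₂ : b₂ ≤ K₀ := by
    rw [hK₀]
    exact (le_mul_of_one_le_left hb₂0.le hb₁1).trans (le_mul_of_one_le_right (by positivity) hQ')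
  have hK₀0 : 0 < K₀ := by linarith
  refine ⟨max A₀ (max K₀ (K₀ ^ (1 / p))), c, hA₀1.trans (le_max_left _ _), hc0, ?_⟩
  intro ι S α u q κ S' α' w q' κ' qs μ L C h hT hcQ' hC0' hC1 hS1 hC2 X hX
  have hXA : A₀ ≤ X := (le_max_left _ _).trans hX
  have hXK : K₀ ≤ X := ((le_max_left _ _).trans (le_max_right _ _)).trans hX
  have hXp : K₀ ≤ X ^ p := small_pow hK₀0 hp0 (((le_max_right _ _).trans (le_max_right _ _)).trans hX)
  have hX1 : 1 ≤ X := hA₀1.trans hXA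
  have hX0 : 0 < X := by linarith
  have hZ1 : 1 ≤ X ^ c := Real.one_le_rpow hX1 hc0.le
  have hq1 : ∀ f g, 1 ≤ q f g := by
    intro f g
    by_cases hfg : f = g
    · rw [hfg]
      exact (h.self g).one_le
    · exact (h.pair f g hfg).one_le
  obtain ⟨Z, hZ⟩ : ∃ Z : ℝ, Z = 3 * X ^ c := ⟨_, rfl⟩
  have hZ3 : 1 ≤ Z := by rw [hZ]; linarith
  obtain ⟨Cx, hCx⟩ : ∃ Cx : ℝ, Cx = b₁ * X ^ (m + p) := ⟨_, rfl⟩
  obtain ⟨Qx, hQx⟩ : ∃ Qx : ℝ, Qx = Z ^ N * (B * (X * X) ^ n) := ⟨_, rfl⟩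
  obtain ⟨Qy, hQy⟩ : ∃ Qy : ℝ, Qy = b₂ * X ^ (2 * n + p) := ⟨_, rfl⟩
  have hXn : (X * X) ^ n = X ^ (2 * (n : ℝ)) := by
    rw [← sq, ← pow_mul, ← Real.rpow_natCast]
    push_cast
    rfl
  have hZk : ∀ k : ℕ, c * k ≤ p → Z ^ k ≤ 3 ^ k * X ^ p := by
    intro k hk
    rw [hZ, mul_pow, ← Real.rpow_natCast (X ^ c), ← Real.rpow_mul hX0.le]
    exact mul_le_mul_of_nonneg_left (Real.rpow_le_rpow_of_exponent_le hX1 hk) (by positivity)
  have hQxy : Qx ≤ Qy := by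
    rw [hQx, hQy, hb₂, hXn, Real.rpow_add hX0]
    calc _ ≤ (3 ^ N * X ^ p) * (B * X ^ (2 * (n : ℝ))) :=
          mul_le_mul_of_nonneg_right (hZk N hcp2) (by positivity)
      _ = _ := by ring
  have hXX : 1 ≤ (X * X) ^ n := one_le_pow₀ (one_le_mul_of_one_le_of_one_le hX1 hX1)
  have hBX : 1 ≤ B * (X * X) ^ n := one_le_mul_of_one_le_of_one_le hB hXX
  have hQx1 : 1 ≤ Qx := by
    rw [hQx]
    exact one_le_mul_of_one_le_of_one_le (one_le_pow₀ hZ3) hBX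
  have hQx0 : 0 < Qx := by linarith
  have hXm : X ≤ X ^ (m + p : ℝ) := by
    have hm1 : (1 : ℝ) ≤ m := by
      have : 1 ≤ m := by omega
      exact_mod_cast this
    calc X = X ^ (1 : ℝ) := (Real.rpow_one X).symm
      _ ≤ _ := Real.rpow_le_rpow_of_exponent_le hX1 (by linarith)
  have hCxX : X ≤ Cx := by
    rw [hCx]
    exact hXm.trans (le_mul_of_one_le_left (by positivity) hb₁1)
  have hCx0 : 0 < Cx := by linarith
  have hXG : X ≤ Cx * Qx * Q' := by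
    have h1 : Cx ≤ Cx * Qx := le_mul_of_one_le_right hCx0.le hQx1
    have h2 : Cx * Qx ≤ Cx * Qx * Q' := le_mul_of_one_le_right (by positivity) hQ'
    linarith
  have hG0 : 0 < Cx * Qx * Q' := by positivity
  have hG1 : 1 ≤ Cx * Qx * Q' := hX1.trans hXG
  have hGX : Cx * Qx * Q' ≤ X ^ g₀ := by
    calc Cx * Qx * Q' ≤ Cx * Qy * Q' :=
          mul_le_mul_of_nonneg_right (mul_le_mul_of_nonneg_left hQxy hCx0.le) hQ'0.le
      _ = K₀ * (X ^ (m + p) * X ^ (2 * n + p)) := by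
          rw [hCx, hQy, hK₀]
          ring
      _ = K₀ * X ^ (m + p + (2 * n + p)) := by rw [← Real.rpow_add hX0]
      _ ≤ X ^ (1 : ℝ) * X ^ (m + p + (2 * n + p)) := by
          refine mul_le_mul_of_nonneg_right ?_ (by positivity)
          rw [Real.rpow_one]
          exact hXK
      _ = X ^ (1 + (m + p + (2 * n + p))) := (Real.rpow_add hX0 _ _).symm
      _ = _ := by
          rw [hg₀]
          congr 1
          ring
  have hGp : (Cx * Qx * Q') ^ ε₁ ≤ X ^ p := by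
    calc _ ≤ (X ^ g₀) ^ ε₁ := Real.rpow_le_rpow hG0.le hGX hε₁0.le
      _ = X ^ p := by rw [← Real.rpow_mul hX0.le, hgε]
  have hCe : ∀ e : ℝ, 0 ≤ e → e ≤ 1 → Cx ^ e ≤ X ^ (m * e + 2 * p) := fun e he0 he1 =>
    pow_cond hX1 hb₁1 (hK₁.trans hXp) hCx hp0.le he0 he1
  have hQe : ∀ e : ℝ, 0 ≤ e → e ≤ 1 → Qx ^ e ≤ X ^ (2 * n * e + 2 * p) := fun e he0 he1 =>
    (Real.rpow_le_rpow hQx0.le hQxy he0).trans
      (pow_cond hX1 hb₂1 (hK₂.trans hXp) hQy hp0.le he0 he1)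
  have hCz : Z ^ (N' + 2 * N) * (B ^ 2 * X ^ m) ≤ Cx := by
    have h1 : c * ((N' + 2 * N : ℕ) : ℝ) ≤ p := by
      push_cast
      exact hcp1
    rw [hCx, hb₁, Real.rpow_add hX0, Real.rpow_natCast]
    calc _ ≤ (3 ^ (N' + 2 * N) * X ^ p) * (B ^ 2 * X ^ m) :=
          mul_le_mul_of_nonneg_right (hZk _ h1) (by positivity)
      _ = _ := by ring
  have hpow : Qx ^ 2 ≤ Cx := by
    refine le_trans ?_ hCz
    have e1 : Qx ^ 2 = Z ^ (2 * N) * (B ^ 2 * X ^ (4 * n)) := by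
      rw [hQx, mul_pow, ← pow_mul, mul_pow, ← pow_mul, mul_pow]
      ring
    rw [e1]
    refine mul_le_mul (pow_le_pow_right₀ hZ3 (by omega)) ?_ (by positivity) (by positivity)
    exact mul_le_mul_of_nonneg_left (pow_le_pow_right₀ hX1 hm) (by positivity)
  obtain ⟨E, hE⟩ : ∃ E : Set ι, E = {f | C f ≤ X ∧ ∃ s : ℂ, |s.im| ≤ X ^ c ∧
      ((σ ≤ s.re ∧ ¬(X ^ (-ε) ≤ ‖L f s‖ ∧ ‖L f s‖ ≤ X ^ ε)) ∨
        (1 / 2 ≤ s.re ∧ s.re ≤ σ ∧ X ^ (m * (σ - s.re) / 2 + ε) < ‖L f s‖))} := ⟨_, rfl⟩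
  have hch : ∀ f, ∃ s : ℂ, f ∈ E → |s.im| ≤ X ^ c ∧
      ((σ ≤ s.re ∧ ¬(X ^ (-ε) ≤ ‖L f s‖ ∧ ‖L f s‖ ≤ X ^ ε)) ∨
        (1 / 2 ≤ s.re ∧ s.re ≤ σ ∧ X ^ (m * (σ - s.re) / 2 + ε) < ‖L f s‖)) := by
    intro f
    by_cases hf : f ∈ E
    · have hf' := hf
      rw [hE] at hf'
      obtain ⟨-, s, hs⟩ := hf'
      exact ⟨s, fun _ => hs⟩
    · exact ⟨0, fun h' => absurd h' hf⟩
  choose s hs using hch
  have hEC : ∀ f ∈ E, C f ≤ X := fun f hf => by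
    rw [hE] at hf
    exact hf.1
  have hcond1 : ∀ f ∈ E, qs f * ∏ j, (1 + ‖μ f j + (s f).im * I‖) ≤ Cx := by
    intro f hf
    have h1 : qs f * ∏ j, (1 + ‖μ f j‖) ≤ B ^ 2 * X ^ m := by
      refine (hC1 f).trans (mul_le_mul ?_ (pow_le_pow_left₀ (by linarith [hC0' f]) (hEC f hf) m)
        (pow_nonneg (by linarith [hC0' f]) m) (by positivity))
      rw [sq]
      exact le_mul_of_one_le_left hB0.le hB
    have h3 : qs f * ∏ j, (1 + ‖μ f j + (s f).im * I‖) ≤ Z ^ N' * (B ^ 2 * X ^ m) := by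
      refine cond_shift (hT.rs f).one_le ?_ h1
      have h2 : ‖((s f).im : ℂ) * I‖ = |(s f).im| := by simp
      rw [h2, hZ]
      linarith [(hs f hf).1]
    refine (h3.trans ?_).trans hCz
    exact mul_le_mul_of_nonneg_right (pow_le_pow_right₀ hZ3 (by omega)) (by positivity)
  have hcond2 : ∀ f ∈ E, ∀ g ∈ E, q f g * ∏ j, (1 + ‖κ f g j + ((s f).im - (s g).im) * I‖) ≤ Qx := by
    intro f hf g hg
    rw [hQx]
    refine cond_shift (hq1 f g) ?_ ((hC2 f g).trans ?_)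
    · have h2 : ‖(((s f).im : ℂ) - (s g).im) * I‖ ≤ |(s f).im| + |(s g).im| := by
        rw [norm_mul, Complex.norm_I, mul_one]
        refine (norm_sub_le _ _).trans ?_
        simp
      rw [hZ]
      linarith [(hs f hf).1, (hs g hg).1]
    · refine mul_le_mul_of_nonneg_left ?_ hB0.le
      refine pow_le_pow_left₀ ?_ ?_ n
      · exact mul_nonneg (by linarith only [hC0' f]) (by linarith only [hC0' g])
      · exact mul_le_mul (hEC f hf) (hEC g hg) (by linarith [hC0' g]) hX0.le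
  have hXe : X ^ p ≤ X ^ ε := Real.rpow_le_rpow_of_exponent_le hX1 (by linarith)
  obtain ⟨hfin, hmain⟩ := hA₀ ι S α u q κ S' α' w q' κ' qs μ L h hT E s Cx Qx Q' (hX1.trans hCxX) hQx1 hpow hcQ'
    (hXA.trans hXG) (fun f hf => ((hS1 f).trans (hEC f hf)).trans hXG) hcond1 hcond2 (fun f hf => by
      rcases (hs f hf).2 with ⟨h1, h2⟩ | ⟨h1, h2, h3⟩
      · refine Or.inl ⟨h1, fun hh => h2 ⟨?_, hh.2.trans (hGp.trans hXe)⟩⟩
        refine le_trans ?_ hh.1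
        rw [Real.rpow_neg hX0.le, Real.rpow_neg hG0.le]
        exact inv_anti₀ (by positivity) (hGp.trans hXe)
      · refine Or.inr ⟨h1, h2, lt_of_le_of_lt ?_ h3⟩
        calc _ ≤ X ^ p * X ^ (m * ((σ - (s f).re) / 2) + 2 * p) :=
              mul_le_mul hGp (hCe _ (by linarith) (by linarith)) (by positivity) (by positivity)
          _ = X ^ (m * (σ - (s f).re) / 2 + ε) := by
              rw [← Real.rpow_add hX0]
              congr 1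
              rw [hp]
              ring)
  have hbd : bd σ Cx Qx ≤ X ^ (eu n m σ + 2 * p) := by
    unfold bd
    refine max_le ?_ ?_
    · refine (hCe (1 - σ) (by linarith) (by linarith)).trans (Real.rpow_le_rpow_of_exponent_le hX1 ?_)
      have : (m : ℝ) * (1 - σ) ≤ eu n m σ := le_max_left _ _
      linarith
    · refine (hQe (az σ) (az_nonneg hσ hσ1) (az_le_one hσ hσ1)).trans (Real.rpow_le_rpow_of_exponent_le hX1 ?_)
      have : 2 * (n : ℝ) * az σ ≤ eu n m σ := le_max_right _ _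
      linarith
  refine ⟨E, hfin, hmain.trans ?_, ?_⟩
  · calc _ ≤ X ^ p * X ^ (eu n m σ + 2 * p) := mul_le_mul hGp hbd (bd_pos hCx0).le (by positivity)
      _ = _ := by
          rw [← Real.rpow_add hX0]
          congr 1
          rw [hp]
          ring
  · intro f hfX hfE z hz
    rw [hE] at hfE
    refine ⟨fun h1 => ?_, fun h1 h2 => ?_⟩
    · by_contra hne
      exact hfE ⟨hfX, z, hz, Or.inl ⟨h1, hne⟩⟩
    · by_contra hne
      exact hfE ⟨hfX, z, hz, Or.inr ⟨h1, h2, not_le.1 hne⟩⟩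

end Pool.Agent.T3h90.TW
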