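import Pool.Agent.T3h90.TW.Fin
import Pool.Agent.T3h90.TW.Shift
import Pool.Agent.N846.ZD.Lind
import Pool.Agent.N846.ZD.Lind3

/-! Exceptional values in a half plane. -/

set_option autoImplicit false

namespace Pool.Agent.T3h90.TW

open Filter Topology Complex MeasureTheory Set NumberField IsDedekindDomain
open Pool.Agent.N846.DU (VX LV Nv logRS RS GLFamily Rep LV_nonneg one_le_cond shift_cond shift_cond' S_LEFT S_DIAG)
open Pool.Agent.N846.LM (Twists)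
open Pool.Agent.N846.ZD (S_POW S_MOLL S_MB S_CONV S_BLOCK S_CVX S_TC one)
open Pool.Agent.N846.LV (S_LVD)
open Pool.Agent.N846.HU (S_DET S_PL twists_sub)

theorem below {σ ε : ℝ} (hσ : 1 / 2 < σ) (hσ1 : σ ≤ 1) (hε : 0 < ε) :
    ∃ σ₂ : ℝ, 1 / 2 < σ₂ ∧ σ₂ < σ ∧ 1 - σ₂ ≤ 1 - σ + ε ∧ az σ₂ ≤ az σ + ε := by
  have c1 : ContinuousAt (fun x : ℝ => az x) σ := by
    have a1 : ContinuousAt (fun x : ℝ => 4 * (1 - x) / (3 - 2 * x)) σ :=
      ContinuousAt.div (by fun_prop) (by fun_prop) (by linarith)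
    have a2 : ContinuousAt (fun x : ℝ => 2 * (1 - x) / (2 * x - 1)) σ :=
      ContinuousAt.div (by fun_prop) (by fun_prop) (by linarith)
    exact Filter.Tendsto.min a1 a2
  have e1 : ∀ᶠ x in 𝓝 σ, az x < az σ + ε := c1.eventually_lt_const (by linarith)
  have e2 : ∀ᶠ x in 𝓝 σ, σ - ε < x := eventually_gt_nhds (by linarith)
  have e3 : ∀ᶠ x in 𝓝 σ, 1 / 2 < x := eventually_gt_nhds hσ
  have e4 := (((e1.and e2).and e3).filter_mono (nhdsWithin_le_nhds (s := Iio σ))).and self_mem_nhdsWithin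
  obtain ⟨x, ⟨⟨h1, h2⟩, h3⟩, h4⟩ := e4.exists
  exact ⟨x, h3, h4, by linarith, h1.le⟩

/-- bookkeeping: larger conductors -/
theorem enlarge {σ ε : ℝ} (hσ : 1 / 2 < σ) (hσ1 : σ ≤ 1) (hε : 0 < ε) {C Q Q' a b D : ℝ}
    (hC : 1 ≤ C) (hQ : 1 ≤ Q) (hQ' : 1 ≤ Q') (ha : 1 ≤ a) (hb : 1 ≤ b) (hD : D ≤ (C * Q * Q') ^ ε) (hab : a * b ≤ D)
    (hε1 : ε ≤ 1) :
    (a * C * (b * Q) * Q') ^ ε * bd σ (a * C) (b * Q) ≤ (C * Q * Q') ^ (3 * ε) * bd σ C Q := by
  have hC0 : 0 < C := by linarith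
  have hQ0 : 0 < Q := by linarith
  have hQ'0 : 0 < Q' := by linarith
  have ha0 : 0 < a := by linarith
  have hb0 : 0 < b := by linarith
  have hG0 : 0 < C * Q * Q' := by positivity
  have hbD : b ≤ (C * Q * Q') ^ ε := by
    have : b ≤ a * b := le_mul_of_one_le_left hb0.le ha
    linarith
  have haD : a ≤ (C * Q * Q') ^ ε := by
    have : a ≤ a * b := le_mul_of_one_le_right ha0.le hb
    linarith
  have e1 : (a * C * (b * Q) * Q') ^ ε = (a * b) ^ ε * (C * Q * Q') ^ ε := by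
    rw [← Real.mul_rpow (by positivity) hG0.le]
    congr 1
    ring
  have e2 : (a * b) ^ ε ≤ (C * Q * Q') ^ ε := by
    calc (a * b) ^ ε ≤ (a * b) ^ (1 : ℝ) :=
          Real.rpow_le_rpow_of_exponent_le (one_le_mul_of_one_le_of_one_le ha hb) hε1
      _ = a * b := Real.rpow_one _
      _ ≤ _ := hab.trans hD
  have e3 : bd σ (a * C) (b * Q) ≤ (C * Q * Q') ^ ε * bd σ C Q := by
    unfold bd
    refine max_le ?_ ?_
    · calc (a * C) ^ (1 - σ) = a ^ (1 - σ) * C ^ (1 - σ) := Real.mul_rpow ha0.le hC0.le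
        _ ≤ (C * Q * Q') ^ ε * max (C ^ (1 - σ)) (Q ^ az σ) := by
            refine mul_le_mul ?_ (le_max_left _ _) (by positivity) (by positivity)
            calc a ^ (1 - σ) ≤ a ^ (1 : ℝ) := Real.rpow_le_rpow_of_exponent_le ha (by linarith)
              _ = a := Real.rpow_one _
              _ ≤ _ := haD
    · calc (b * Q) ^ az σ = b ^ az σ * Q ^ az σ := Real.mul_rpow hb0.le hQ0.le
        _ ≤ (C * Q * Q') ^ ε * max (C ^ (1 - σ)) (Q ^ az σ) := by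
            refine mul_le_mul ?_ (le_max_right _ _) (by positivity) (by positivity)
            calc b ^ az σ ≤ b ^ (1 : ℝ) := Real.rpow_le_rpow_of_exponent_le hb (az_le_one hσ hσ1)
              _ = b := Real.rpow_one _
              _ ≤ _ := hbD
  rw [e1]
  calc _ ≤ ((C * Q * Q') ^ ε * (C * Q * Q') ^ ε) * ((C * Q * Q') ^ ε * bd σ C Q) :=
        mul_le_mul (mul_le_mul_of_nonneg_right e2 (by positivity)) e3 (bd_pos (by positivity)).le (by positivity)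
    _ = ((C * Q * Q') ^ ε * (C * Q * Q') ^ ε * (C * Q * Q') ^ ε) * bd σ C Q := by ring
    _ = _ := by
        rw [← Real.rpow_add hG0, ← Real.rpow_add hG0]
        congr 2
        ring

/-- exceptional values in a half plane -/
theorem val_set (hPow : S_POW) (hMo : S_MOLL) (hMb : S_MB) (hConv : S_CONV) (hBl : S_BLOCK) (hL : S_LEFT)
    (hDi : S_DIAG) (hLvd : S_LVD) (hDet : S_DET) (hPl : S_PL) (hCv : S_CVX) (hTc : S_TC)
    (K : Type) [Field K] [NumberField K] (n N n' N' N'' : ℕ) (hn : 1 ≤ n) {σ ε : ℝ} (hσ : 1 / 2 < σ)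
    (hσ1 : σ ≤ 1) (hε : 0 < ε) : ∃ A : ℝ, 1 ≤ A ∧
    ∀ (ι : Type) (S : ι → Finset (HeightOneSpectrum (𝓞 K)))
      (α : ι → HeightOneSpectrum (𝓞 K) → Fin n → ℂ) (u : ι → VX K → ℂ) (q : ι → ι → ℝ) (κ : ι → ι → Fin N → ℂ)
      (S' : Finset (HeightOneSpectrum (𝓞 K))) (α' : HeightOneSpectrum (𝓞 K) → Fin n' → ℂ) (w : VX K → ℂ) (q' : ℝ)
      (κ' : Fin N'' → ℂ) (qs : ι → ℝ) (μ : ι → Fin N' → ℂ) (L : ι → ℂ → ℂ),
      GLFamily n N S α u q κ → Twists n' N' N'' u S' α' w q' κ' qs μ L →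
      ∀ (T : Set ι) (s : ι → ℂ) (C Q Q' : ℝ), 1 ≤ C → 1 ≤ Q → 2 * Real.log Q ≤ Real.log C →
        q' * ∏ j, (1 + ‖κ' j‖) ≤ Q' → A ≤ C * Q * Q' → (∀ f ∈ T, ∏ v ∈ S f, Nv v ≤ C * Q * Q') →
        (∀ f ∈ T, σ ≤ (s f).re ∧ ¬((C * Q * Q') ^ (-ε) ≤ ‖L f (s f)‖ ∧ ‖L f (s f)‖ ≤ (C * Q * Q') ^ ε)) →
        (∀ f ∈ T, qs f * ∏ j, (1 + ‖μ f j + (s f).im * I‖) ≤ C) →
        (∀ f ∈ T, ∀ g ∈ T, q f g * ∏ j, (1 + ‖κ f g j + ((s f).im - (s g).im) * I‖) ≤ Q) →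
        T.Finite ∧ (T.ncard : ℝ) ≤ (C * Q * Q') ^ ε * bd σ C Q := by
  obtain ⟨e, he⟩ : ∃ e : ℝ, e = min 1 (ε / 4) := ⟨_, rfl⟩
  have he0 : 0 < e := by rw [he]; exact lt_min one_pos (by positivity)
  have he1 : e ≤ 1 := by rw [he]; exact min_le_left _ _
  have he4 : 4 * e ≤ ε := by
    have : e ≤ ε / 4 := by rw [he]; exact min_le_right _ _
    linarith
  obtain ⟨σ₂, hs1, hs2, hs3, hs4⟩ := below hσ hσ1 he0
  obtain ⟨A₀, hA₀1, hA₀⟩ := zd_set hPow hMo hMb hConv hBl hL hDi hLvd hDet hPl hCv K n N n' N' N'' hn hs1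
    (by linarith) he0
  obtain ⟨A₁, hA₁1, hA₁⟩ := one hL hDi hCv hTc K n N n' N' N'' (σ := σ₂) (σ' := σ) (δ := ε) (by linarith) hs2 hσ1 hε
  have h3N' : (1 : ℝ) ≤ 3 ^ N' := one_le_pow₀ (by norm_num)
  have h5N : (1 : ℝ) ≤ 5 ^ N := one_le_pow₀ (by norm_num)
  obtain ⟨a, ha⟩ : ∃ a : ℝ, a = 3 ^ N' * (5 ^ N) ^ 2 := ⟨_, rfl⟩
  have h52 : (1 : ℝ) ≤ (5 ^ N) ^ 2 := one_le_pow₀ h5N
  have ha3 : (3 : ℝ) ^ N' ≤ a := by rw [ha]; exact le_mul_of_one_le_right (by positivity) h52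
  have ha5 : ((5 : ℝ) ^ N) ^ 2 ≤ a := by rw [ha]; exact le_mul_of_one_le_left (by positivity) h3N'
  have ha1 : 1 ≤ a := h3N'.trans ha3
  have ha0 : 0 < a := by linarith
  refine ⟨max (max A₀ A₁) ((a * 5 ^ N) ^ (1 / e)), hA₀1.trans ((le_max_left _ _).trans (le_max_left _ _)), ?_⟩
  intro ι S α u q κ S' α' w q' κ' qs μ L h hT T s C Q Q' hC hQ hjC hcQ' hAG hram hbad hcC hcQ
  have hAG0 : A₀ ≤ C * Q * Q' := ((le_max_left _ _).trans (le_max_left _ _)).trans hAG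
  have hAG1 : A₁ ≤ C * Q * Q' := ((le_max_right _ _).trans (le_max_left _ _)).trans hAG
  have hAG2 : (a * 5 ^ N) ^ (1 / e) ≤ C * Q * Q' := (le_max_right _ _).trans hAG
  have hC0 : 0 < C := by linarith
  have hQ0 : 0 < Q := by linarith
  have hQ'1 : 1 ≤ Q' := by
    have h2 := one_le_cond (κ := κ') hT.self.one_le 0
    simp only [add_zero] at h2
    linarith
  have hQ'0 : 0 < Q' := by linarith
  have hG1 : 1 ≤ C * Q * Q' := hA₁1.trans hAG1
  have hG0 : 0 < C * Q * Q' := by linarith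
  -- a zero close to `s f`
  have hch : ∀ f, ∃ ρ : ℂ, f ∈ T → L f ρ = 0 ∧ σ₂ ≤ ρ.re ∧ |ρ.im - (s f).im| ≤ 2 := by
    intro f
    by_cases hf : f ∈ T
    · by_contra hne
      push Not at hne
      obtain ⟨hre, hb⟩ := hbad f hf
      refine hb ?_
      have hcQf : q f f * ∏ j, (1 + ‖κ f f j‖) ≤ Q := by
        have := hcQ f hf f hf
        simpa only [sub_self, zero_mul, add_zero] using this
      refine hA₁ ι S α u q κ S' α' w q' κ' qs μ L h hT f (s f).im C Q Q' hC hQ hcQ' (hcC f hf) hcQf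
        hAG1 ?_ (s f) hre rfl
      intro ρ hρ1 hρ2 hρ3
      obtain ⟨-, h5⟩ := hne ρ
      exact absurd (h5 hρ3 hρ1.le) (not_lt.2 hρ2.le)
    · exact ⟨0, fun h' => absurd h' hf⟩
  choose ρ hρ using hch
  obtain ⟨hc1, hc2⟩ := shift_fam h hT (T := T) (t := fun f => (s f).im) (t' := fun f => (ρ f).im) (C := C) (Q := Q)
    (R := 2) (by norm_num) (fun f hf => (hρ f hf).2.2) hcC hcQ
  rw [show (1 + 2 : ℝ) = 3 by norm_num] at hc1
  rw [show (1 + 2 * 2 : ℝ) = 5 by norm_num] at hc2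
  have hCC : C ≤ a * C := le_mul_of_one_le_left hC0.le ha1
  have hQQ : Q ≤ 5 ^ N * Q := le_mul_of_one_le_left hQ0.le h5N
  have hGG : C * Q * Q' ≤ a * C * (5 ^ N * Q) * Q' :=
    mul_le_mul_of_nonneg_right (mul_le_mul hCC hQQ hQ0.le (by positivity)) hQ'0.le
  obtain ⟨hfin, hmain⟩ := hA₀ ι S α u q κ S' α' w q' κ' qs μ L h hT T ρ (a * C) (5 ^ N * Q) Q' (hC.trans hCC)
    (hQ.trans hQQ) (by
      have e1 : Real.log (a * C) = Real.log a + Real.log C := Real.log_mul ha0.ne' hC0.ne'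
      have e2 : Real.log (5 ^ N * Q) = Real.log (5 ^ N) + Real.log Q := Real.log_mul (by positivity) hQ0.ne'
      have e3 : 2 * Real.log (5 ^ N) ≤ Real.log a := by
        have h3 := Real.log_le_log (by positivity) ha5
        rw [Real.log_pow ((5 : ℝ) ^ N) 2] at h3
        exact_mod_cast h3
      rw [e1, e2]
      linarith) hcQ' (hAG0.trans hGG) (fun f hf => (hram f hf).trans hGG)
    (fun f hf => ⟨(hρ f hf).1, (hρ f hf).2.1⟩) (fun f hf => (hc1 f hf).trans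
      (mul_le_mul_of_nonneg_right ha3 hC0.le)) hc2
  refine ⟨hfin, hmain.trans ?_⟩
  have h1 := enlarge hs1 (by linarith) he0 hC hQ hQ'1 ha1 h5N (small_pow (by positivity) he0 hAG2) le_rfl he1
  refine h1.trans ?_
  have h2 : bd σ₂ C Q ≤ (C * Q * Q') ^ e * bd σ C Q := by
    have hQG : Q ≤ C * Q * Q' := by
      have h1 : Q ≤ C * Q := le_mul_of_one_le_left hQ0.le hC
      exact h1.trans (le_mul_of_one_le_right (by positivity) hQ'1)
    have hCG : C ≤ C * Q * Q' := by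
      have h1 : C ≤ C * Q := le_mul_of_one_le_right hC0.le hQ
      exact h1.trans (le_mul_of_one_le_right (by positivity) hQ'1)
    unfold bd
    refine max_le ?_ ?_
    · calc C ^ (1 - σ₂) ≤ C ^ (1 - σ + e) := Real.rpow_le_rpow_of_exponent_le hC hs3
        _ = C ^ e * C ^ (1 - σ) := by rw [Real.rpow_add hC0, mul_comm]
        _ ≤ _ := mul_le_mul (Real.rpow_le_rpow hC0.le hCG he0.le) (le_max_left _ _) (by positivity) (by positivity)
    · calc Q ^ az σ₂ ≤ Q ^ (az σ + e) := Real.rpow_le_rpow_of_exponent_le hQ hs4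
        _ = Q ^ e * Q ^ az σ := by rw [Real.rpow_add hQ0, mul_comm]
        _ ≤ _ := mul_le_mul (Real.rpow_le_rpow hQ0.le hQG he0.le) (le_max_right _ _) (by positivity) (by positivity)
  calc (C * Q * Q') ^ (3 * e) * bd σ₂ C Q ≤ (C * Q * Q') ^ (3 * e) * ((C * Q * Q') ^ e * bd σ C Q) :=
        mul_le_mul_of_nonneg_left h2 (by positivity)
    _ = (C * Q * Q') ^ (4 * e) * bd σ C Q := by
        rw [← mul_assoc, ← Real.rpow_add hG0]
        congr 2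
        ring
    _ ≤ _ := by
        refine mul_le_mul_of_nonneg_right ?_ (bd_pos hC0).le
        exact Real.rpow_le_rpow_of_exponent_le hG1 he4

end Pool.Agent.T3h90.TW
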